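import Pool.Agent.TH402.FB.Rel

set_option autoImplicit false

/-!
# Vectors of primes in admissible families

`R` is a set of increasing vectors of primes with an element among any `m` consecutive primes. Every
admissible family of shifts contains the shifts of an element of `R`.
-/

open Filter Topology Finset

namespace Pool.Agent.N688.RP

open Pool.Agent.H947R3.GM Pool.Agent.W59.GB Pool.Agent.W142.TF
open Pool.Agent.H732R3.BigQ

/-- `R` is a set of increasing vectors of primes with an element among any `m` consecutive primes -/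
def Una {n : ℕ} (m : ℕ) (R : Set (Fin n → ℕ)) : Prop :=
  (∀ v ∈ R, StrictMono v ∧ ∀ i, (v i).Prime) ∧
    ∀ j : ℕ, ∃ v ∈ R, ∀ i, ∃ l < m, v i = Nat.nth Nat.Prime (j + l)

theorem le_nth {p : ℕ → Prop} [DecidablePred p] (hp : {n | p n}.Infinite) {n k : ℕ}
    (h : Nat.count p n ≤ k) : n ≤ Nat.nth p k := by
  by_contra h5
  push Not at h5
  have h6 : Nat.count p (Nat.nth p k) = k := Nat.count_nth_of_infinite hp k
  have h7 : Nat.count p (Nat.nth p k + 1) ≤ Nat.count p n := Nat.count_monotone _ h5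
  rw [Nat.count_succ, if_pos (Nat.nth_mem_of_infinite hp k), h6] at h7
  omega

/-- the general form: the shifts which are not used are blocked by divisors of `Q` -/
theorem block_core {T K m : ℕ} (H : Fin T → Fin K → ℕ)
    (hHinj : Function.Injective (fun x : Fin T × Fin K => H x.1 x.2))
    {M : ℕ} (hM : ∀ g i, H g i ≤ M) {Q r : ℕ} (hQ0 : 0 < Q)
    (hblock : ∀ t ≤ M, (∀ g i, H g i ≠ t) → ∃ q, q.Prime ∧ q ∣ Q ∧ q ∣ r + t)
    {S₀ : Finset (Fin T)} {c : Fin T → Fin K} {k : ℕ} (hS : m ≤ S₀.card)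
    {R : Set (Fin (k + 1) → ℕ)} (hR : Una m R)
    (hinf : Big {n : ℕ | ∀ g ∈ S₀, 0 < (Q : ℤ) * (n : ℤ) + ((r + H g (c g) : ℕ) : ℤ) ∧
        Prime ((Q : ℤ) * (n : ℤ) + ((r + H g (c g) : ℕ) : ℤ))}) :
    ∃ x : Fin (k + 1) → Fin T × Fin K,
      (∀ i j, i < j → H (x i).1 (x i).2 < H (x j).1 (x j).2) ∧
      Big {n : ℕ | (fun j => Q * n + r + H (x j).1 (x j).2) ∈ R} := by
  classical
  set X : Set ℕ := {n : ℕ | 2 ≤ n ∧ ∀ g ∈ S₀, (Q * n + r + H g (c g)).Prime} with hX
  have hXinf : Big X := by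
    refine (big_ge hinf 2).mono ?_
    rintro n ⟨hn, hn2⟩
    refine ⟨hn2, fun g hg => ?_⟩
    have := (hn g hg).2
    rw [Nat.prime_iff_prime_int]
    push_cast at this ⊢
    rwa [add_assoc]
  set Y : (Fin (k + 1) → Fin T × Fin K) → Set ℕ := fun x =>
    {n | (∀ i j, i < j → H (x i).1 (x i).2 < H (x j).1 (x j).2) ∧
      (fun j => Q * n + r + H (x j).1 (x j).2) ∈ R} with hY
  have hcover : X ⊆ ⋃ z, Y z := by
    rintro n ⟨hn2, hn⟩
    -- non-shifts give composite numbers
    have hcomp : ∀ t ≤ M, (∀ g i, H g i ≠ t) → ¬ (Q * n + r + t).Prime := by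
      intro t ht hne hpr
      obtain ⟨q, hqp, hqQ, hqr⟩ := hblock t ht hne
      have h1 : q ∣ Q * n + r + t := by
        rw [add_assoc]
        exact dvd_add (hqQ.mul_right n) hqr
      have h2 : q = Q * n + r + t := (Nat.prime_dvd_prime_iff_eq hqp hpr).1 h1
      have h3 : q ≤ Q := Nat.le_of_dvd hQ0 hqQ
      have h4 := hqp.pos
      nlinarith
    -- the number of primes of the window
    obtain ⟨j, hj⟩ : ∃ j, j = Nat.count Nat.Prime (Q * n + r) := ⟨_, rfl⟩
    have hcnt : j + m ≤ Nat.count Nat.Prime (Q * n + r + (M + 1)) := by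
      rw [Nat.count_add, hj]
      refine Nat.add_le_add_left (hS.trans ?_) _
      rw [Nat.count_eq_card_filter_range]
      refine Finset.card_le_card_of_injOn (fun g => H g (c g)) ?_ ?_
      · intro g hg
        rw [Finset.mem_coe] at hg
        rw [Finset.mem_coe, Finset.mem_filter, Finset.mem_range]
        exact ⟨Nat.lt_succ_of_le (hM _ _), hn g hg⟩
      · intro g _ g' _ h
        exact (Prod.mk.inj (hHinj (a₁ := (g, c g)) (a₂ := (g', c g')) h)).1
    obtain ⟨v, hvR, hv⟩ := hR.2 j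
    have key : ∀ i : Fin (k + 1), ∃ z : Fin T × Fin K, v i = Q * n + r + H z.1 z.2 := by
      intro i
      obtain ⟨l, hl, hvi⟩ := hv i
      have h3 : v i < Q * n + r + (M + 1) := by
        rw [hvi]
        exact Nat.nth_lt_of_lt_count (by omega)
      have h4 : Q * n + r ≤ v i := by
        rw [hvi]
        exact le_nth Nat.infinite_setOfPred_prime (by omega)
      obtain ⟨t, ht⟩ : ∃ t, v i = Q * n + r + t := ⟨v i - (Q * n + r), by omega⟩
      have hp : (Q * n + r + t).Prime := by
        rw [← ht]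
        exact (hR.1 v hvR).2 i
      by_contra hne
      push Not at hne
      refine hcomp t (by omega) (fun g i' h => ?_) hp
      exact hne (g, i') (by rw [ht, ← h])
    choose x hx using key
    rw [Set.mem_iUnion]
    refine ⟨x, ?_, ?_⟩
    · intro i i' hii
      have h1 : v i < v i' := (hR.1 v hvR).1 hii
      rw [hx, hx] at h1
      omega
    · have e : (fun j => Q * n + r + H (x j).1 (x j).2) = v := by
        funext j
        exact (hx j).symm
      show (fun j => Q * n + r + H (x j).1 (x j).2) ∈ R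
      rw [e]
      exact hvR
  obtain ⟨z, hz⟩ := big_cover Y X hXinf hcover
  obtain ⟨n₀, hn₀⟩ := hz.infinite.nonempty
  exact ⟨z, hn₀.1, hz.mono fun n hn => hn.2⟩

open Classical in
/-- blocks in every admissible family -/
theorem blockB (hQ : QuarterB) {N a : ℕ} (hN : 0 < N) (ha : a.Coprime N) {m k : ℕ}
    {R : Set (Fin (k + 1) → ℕ)} (hR : Una m R) :
    ∃ T K : ℕ, 1 ≤ K ∧ ∀ H : Fin T → Fin K → ℕ, AdmN N H →
    ∃ x : Fin (k + 1) → Fin T × Fin K, (∀ i j, i < j → H (x i).1 (x i).2 < H (x j).1 (x j).2) ∧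
      Big {n : ℕ | n ≡ a [MOD N] ∧
        (fun j => n + N * (H (x j).1 (x j).2 - H (x 0).1 (x 0).2)) ∈ R} := by
  obtain ⟨K, hK, h⟩ := hQ (4 * m)
  refine ⟨4 * m, K, hK, fun H hH => ?_⟩
  set H' : Fin (4 * m) → Fin K → ℕ := fun g i => N * H g i with hH'
  have hinjH' : Function.Injective (fun x : Fin (4 * m) × Fin K => H' x.1 x.2) := by
    intro x y hxy
    exact hH.1 (Nat.eq_of_mul_eq_mul_left hN hxy)
  -- a bound for the shifts
  obtain ⟨M, hM⟩ : ∃ M, ∀ g i, H' g i ≤ M :=
    ⟨univ.sup fun x : Fin (4 * m) × Fin K => H' x.1 x.2, fun g i =>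
      le_sup (f := fun x : Fin (4 * m) × Fin K => H' x.1 x.2) (mem_univ (g, i))⟩
  set q : ℕ → ℕ := fun t => Nat.nth Nat.Prime (M + N + t) with hq
  have hqp : ∀ t, (q t).Prime := fun t => Nat.prime_nth_prime _
  have hqM : ∀ t, M + N + t < q t := fun t => by
    have := Nat.add_two_le_nth_prime (M + N + t)
    simp only [hq]; omega
  have hqinj : Function.Injective q := by
    intro s t hst
    have := Nat.nth_injective Nat.infinite_setOfPred_prime hst
    omega
  set U : Finset ℕ := (range (M + 1)).filter fun t => ∀ g i, H' g i ≠ t with hU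
  have hpair : Set.Pairwise (U : Set ℕ) (Function.onFun Nat.Coprime q) := by
    intro s _ t _ hst
    exact (Nat.coprime_primes (hqp s) (hqp t)).2 fun h => hst (hqinj h)
  obtain ⟨r₀, hr₀⟩ := Nat.chineseRemainderOfFinset (fun t => q t - t) q U
    (fun t _ => (hqp t).ne_zero) hpair
  set Q₀ : ℕ := ∏ t ∈ U, q t with hQ₀def
  have hQ₀ : 0 < Q₀ := prod_pos fun t _ => (hqp t).pos
  have hcopN : Nat.Coprime Q₀ N := by
    refine Nat.Coprime.prod_left fun t _ => ?_
    rw [Nat.Prime.coprime_iff_not_dvd (hqp t)]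
    intro hd
    have h1 := Nat.le_of_dvd hN hd
    have h2 := hqM t
    omega
  obtain ⟨r, hrQ, hrN⟩ := Nat.chineseRemainder hcopN r₀ a
  have hr' : ∀ t ∈ U, q t ∣ r + t := by
    intro t ht
    have h0 : r ≡ r₀ [MOD q t] := hrQ.of_dvd (dvd_prod_of_mem q ht)
    have h1 := (h0.trans (hr₀ t ht)).add_right t
    have h2 : q t - t + t = q t := by have := hqM t; omega
    rw [h2] at h1
    exact (Nat.modEq_zero_iff_dvd.1 (h1.trans (by simp [Nat.ModEq])))
  set Q : ℕ := Q₀ * N with hQdef
  have hQ0 : 0 < Q := Nat.mul_pos hQ₀ hN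
  obtain ⟨S₀, c, hS, hinf⟩ := h (fun _ _ => (Q : ℤ)) (fun g i => ((r + H' g i : ℕ) : ℤ))
    (fun _ _ => by exact_mod_cast hQ0)
    (by
      intro x y hxy
      apply hinjH'
      simp only [Prod.mk.injEq, Nat.cast_inj, true_and] at hxy
      exact Nat.add_left_cancel hxy)
    (by
      intro p hp
      by_cases hpN : p ∣ N
      · refine ⟨0, fun g i hd => ?_⟩
        rw [mul_zero, zero_add] at hd
        have hd' : p ∣ r + N * H g i := by exact_mod_cast hd
        have h1 : p ∣ r := (Nat.dvd_add_left (hpN.mul_right _)).1 hd'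
        have h2 : p ∣ a := by
          have h3 : r ≡ a [MOD p] := hrN.of_dvd hpN
          exact (h3.dvd_iff dvd_rfl).1 h1
        have h4 : p ∣ Nat.gcd a N := Nat.dvd_gcd h2 hpN
        rw [ha] at h4
        exact hp.one_lt.ne' (Nat.dvd_one.1 h4)
      by_cases hpQ : p ∣ Q₀
      · refine ⟨0, fun g i hd => ?_⟩
        obtain ⟨t, htU, hpt⟩ := (hp.prime.dvd_finsetProd_iff _).1 hpQ
        have hpq : p = q t := (Nat.prime_dvd_prime_iff_eq hp (hqp t)).1 hpt
        rw [mul_zero, zero_add] at hd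
        have hd' : q t ∣ r + H' g i := by rw [← hpq]; exact_mod_cast hd
        have h1 := hr' t htU
        have hne : H' g i ≠ t := (mem_filter.1 htU).2 g i
        have htM : t ≤ M := by
          have := (mem_filter.1 htU).1
          rw [mem_range] at this; omega
        have h2 : (q t : ℤ) ∣ (H' g i : ℤ) - t := by
          have h3 : (q t : ℤ) ∣ ((r + H' g i : ℕ) : ℤ) - ((r + t : ℕ) : ℤ) :=
            dvd_sub (by exact_mod_cast hd') (by exact_mod_cast h1)
          push_cast at h3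
          have e : (r : ℤ) + H' g i - (r + t) = H' g i - t := by ring
          rwa [e] at h3
        have h4 : |(H' g i : ℤ) - t| < q t := by
          have := hqM t
          have h5 := hM g i
          rw [abs_lt]
          constructor <;> omega
        have h6 := Int.eq_zero_of_abs_lt_dvd h2 h4
        omega
      · obtain ⟨n₀, hn₀⟩ := hH.2 p hp hpN
        have hpQ' : ¬ p ∣ Q := fun h => (hp.dvd_mul.1 h).elim hpQ hpN
        have hcop : IsCoprime (Q : ℤ) (p : ℤ) := by
          rw [Nat.isCoprime_iff_coprime]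
          exact ((Nat.Prime.coprime_iff_not_dvd hp).2 hpQ').symm
        obtain ⟨u, v, huv⟩ := hcop
        refine ⟨u * (N * n₀ - r), fun g i hd => ?_⟩
        have hd2 : (p : ℤ) ∣ N * (n₀ + H g i) := by
          have e : (N : ℤ) * (n₀ + H g i) = ((Q : ℤ) * (u * (N * n₀ - r)) + ((r + H' g i : ℕ) : ℤ)) +
              p * (v * (N * n₀ - r)) := by
            simp only [hH']
            push_cast
            linear_combination (-(N * n₀ - (r : ℤ))) * huv
          rw [e]
          exact dvd_add hd (dvd_mul_right _ _)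
        rcases (Nat.prime_iff_prime_int.1 hp).dvd_or_dvd hd2 with h1 | h1
        · exact hpN (by exact_mod_cast h1)
        · exact hn₀ g i h1)
  obtain ⟨x, hlt, hx⟩ := block_core H' hinjH' hM hQ0 (r := r) (m := m) (by
    intro t ht hne
    have htU : t ∈ U := by
      rw [hU, mem_filter, mem_range]; exact ⟨by omega, hne⟩
    exact ⟨q t, hqp t, (dvd_prod_of_mem q htU).mul_right N, hr' t htU⟩) (by omega) hR hinf
  have hlt' : ∀ i j, i < j → H (x i).1 (x i).2 < H (x j).1 (x j).2 :=
    fun i j hij => Nat.lt_of_mul_lt_mul_left (hlt i j hij)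
  refine ⟨x, hlt', ?_⟩
  refine hx.affine Q ((r + H' (x 0).1 (x 0).2 : ℕ) : ℤ) hQ0
    (fun n => Q * n + r + H' (x 0).1 (x 0).2) (fun n _ => by push_cast; ring) ?_
  intro n hn
  have h1 : Q * n ≡ 0 [MOD N] := by
    rw [Nat.modEq_zero_iff_dvd, hQdef]
    exact (dvd_mul_left N Q₀).mul_right n
  have h2 : H' (x 0).1 (x 0).2 ≡ 0 [MOD N] := by
    rw [Nat.modEq_zero_iff_dvd]
    exact dvd_mul_right N _
  refine ⟨by simpa using (h1.add hrN).add h2, ?_⟩
  have e : (fun j => Q * n + r + H' (x 0).1 (x 0).2 +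
      N * (H (x j).1 (x j).2 - H (x 0).1 (x 0).2)) =
      fun j => Q * n + r + H' (x j).1 (x j).2 := by
    funext j
    have h3 : H (x 0).1 (x 0).2 ≤ H (x j).1 (x j).2 := by
      rcases Fin.eq_zero_or_eq_succ j with h | ⟨i, h⟩
      · rw [h]
      · exact (hlt' 0 j (by rw [h]; exact Fin.succ_pos i)).le
    have h4 : N * H (x 0).1 (x 0).2 ≤ N * H (x j).1 (x j).2 := Nat.mul_le_mul_left N h3
    rw [Nat.mul_sub]
    simp only [hH']
    omega
  show (fun j => Q * n + r + H' (x 0).1 (x 0).2 +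
      N * (H (x j).1 (x j).2 - H (x 0).1 (x 0).2)) ∈ R
  rw [e]
  exact hn

end Pool.Agent.N688.RP
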