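import Pool.Agent.N688.RP.Chain

set_option autoImplicit false

/-!
# Averages over boxes and counting; sub-patterns of lists
-/

open Filter Topology Finset

namespace Pool.Agent.N688.RP

theorem Av_ofFn (L : ℕ) (hL : 0 < L) : ∀ (k : ℕ) (v : Fin k → ℤ) (f : List ℤ → ℝ),
    Av L (List.ofFn v) f * (L : ℝ) ^ k =
      ∑ n ∈ Fintype.piFinset (fun _ : Fin k => range L), f (List.ofFn fun i => v i + (n i : ℤ)) := by
  intro k
  induction k with
  | zero =>
    intro v f
    simp [Av]
  | succ k ih =>
    intro v f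
    have hL' : (L : ℝ) ≠ 0 := by exact_mod_cast hL.ne'
    have e1 : Av L (List.ofFn v) f = (L : ℝ)⁻¹ * ∑ n ∈ range L,
        Av L (List.ofFn fun i : Fin k => v i.succ) (fun h' => f ((v 0 + (n : ℤ)) :: h')) := by
      rw [List.ofFn_succ]
      rfl
    have e2 : Av L (List.ofFn v) f * (L : ℝ) ^ (k + 1) = ∑ n ∈ range L,
        Av L (List.ofFn fun i : Fin k => v i.succ) (fun h' => f ((v 0 + (n : ℤ)) :: h')) *
          (L : ℝ) ^ k := by
      rw [e1, pow_succ, ← sum_mul]
      field_simp
    rw [e2, sum_congr rfl fun n _ => ih (fun i : Fin k => v i.succ) _]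
    rw [← sum_product']
    refine sum_nbij' (fun p : ℕ × (Fin k → ℕ) => (Fin.cons p.1 p.2 : Fin (k + 1) → ℕ))
      (fun g => (g 0, Fin.tail g)) ?_ ?_ ?_ ?_ ?_
    · rintro ⟨n, g⟩ h
      rw [mem_product, Fintype.mem_piFinset] at h
      rw [Fintype.mem_piFinset]
      intro i
      refine Fin.cases ?_ (fun i => ?_) i
      · exact h.1
      · exact h.2 i
    · intro g h
      rw [Fintype.mem_piFinset] at h
      rw [mem_product, Fintype.mem_piFinset]
      exact ⟨h 0, fun i => h i.succ⟩
    · rintro ⟨n, g⟩ _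
      simp [Fin.tail_cons]
    · intro g _
      exact Fin.cons_self_tail g
    · rintro ⟨n, g⟩ _
      rw [List.ofFn_succ]
      simp

open Classical in
/-- the average of an indicator function is bounded by the number of points -/
theorem Av_le (L : ℕ) (hL : 0 < L) (k : ℕ) (v : Fin k → ℤ) (R : Set (List ℤ)) (κ : ℝ)
    (h : (({n : Fin k → ℕ | (∀ i, n i < L) ∧ (List.ofFn fun i => v i + (n i : ℤ)) ∈ R}.ncard : ℕ) : ℝ) ≤
      κ * (L : ℝ) ^ k) :
    Av L (List.ofFn v) (fun h => if h ∈ R then 1 else 0) ≤ κ := by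
  have hL' : (0 : ℝ) < (L : ℝ) ^ k := by positivity
  refine le_of_mul_le_mul_right ?_ hL'
  refine le_trans (le_of_eq ?_) h
  rw [Av_ofFn L hL, sum_boole]
  congr 1
  rw [← Set.ncard_coe_finset]
  congr 1
  ext n
  simp [Fintype.mem_piFinset]

/-- a box of multiples is in a box -/
theorem box_count {k : ℕ} (c0 : ℕ) (hc0 : 0 < c0) (σ : ℤ) (hσ : σ = 1 ∨ σ = -1)
    (τ : Fin k → Fin k) (hτ : Function.Surjective τ) (v : Fin k → ℤ) (L : ℕ)
    (W : Set (Fin k → ℕ)) (hpos : ∀ g ∈ W, ∀ j, 0 < g j) :
    ∃ u : Fin k → ℕ,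
      {n : Fin k → ℕ | (∀ i, n i < L) ∧ ∃ g ∈ W, ∀ j, (g j : ℤ) = σ * c0 * (v (τ j) + (n (τ j) : ℤ))}.ncard ≤
      {g : Fin k → ℕ | (∀ j, u j < g j ∧ g j ≤ u j + c0 * L) ∧ g ∈ W}.ncard := by
  classical
  refine ⟨fun j => if σ = 1 then ((c0 : ℤ) * v (τ j) - 1).toNat else
    (-((c0 : ℤ) * (v (τ j) + L - 1)) - 1).toNat, ?_⟩
  set u : Fin k → ℕ := fun j => if σ = 1 then ((c0 : ℤ) * v (τ j) - 1).toNat else
    (-((c0 : ℤ) * (v (τ j) + L - 1)) - 1).toNat with hu
  have hfin : {g : Fin k → ℕ | (∀ j, u j < g j ∧ g j ≤ u j + c0 * L) ∧ g ∈ W}.Finite := by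
    refine (Set.Finite.pi (fun j : Fin k => Set.finite_Iic (u j + c0 * L))).subset ?_
    rintro g ⟨hg, _⟩ j _
    exact (hg j).2
  have hc0' : (1 : ℤ) ≤ c0 := by exact_mod_cast hc0
  have key : ∀ (z : ℤ) (n g : ℕ), n < L → 0 < g → (g : ℤ) = σ * c0 * (z + n) →
      (if σ = 1 then ((c0 : ℤ) * z - 1).toNat else (-((c0 : ℤ) * (z + L - 1)) - 1).toNat) < g ∧
      g ≤ (if σ = 1 then ((c0 : ℤ) * z - 1).toNat else (-((c0 : ℤ) * (z + L - 1)) - 1).toNat) + c0 * L := by
    intro z n g hn hg he
    have h1 : (c0 : ℤ) * n ≤ c0 * (L - 1) := mul_le_mul_of_nonneg_left (by omega) (by omega)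
    have h2 : 0 ≤ (c0 : ℤ) * n := by positivity
    have h3 : (c0 : ℤ) * (L - 1) = c0 * L - c0 := by ring
    rcases hσ with h | h
    · rw [if_pos h]
      rw [h, one_mul, mul_add] at he
      have h5 : ((c0 * L : ℕ) : ℤ) = (c0 : ℤ) * L := by push_cast; ring
      constructor <;> omega
    · rw [if_neg (by rw [h]; norm_num)]
      rw [h] at he
      have h4 : (-1 : ℤ) * c0 * (z + n) = -(c0 * z) - c0 * n := by ring
      rw [h4] at he
      have h5 : ((c0 * L : ℕ) : ℤ) = (c0 : ℤ) * L := by push_cast; ring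
      have h6 : (c0 : ℤ) * (z + L - 1) = c0 * z + c0 * L - c0 := by ring
      rw [h6]
      constructor <;> omega
  refine Set.ncard_le_ncard_of_injOn
    (fun n j => (σ * c0 * (v (τ j) + (n (τ j) : ℤ))).toNat) ?_ ?_ hfin
  · rintro n ⟨hn, g, hg, he⟩
    have e : (fun j => (σ * c0 * (v (τ j) + (n (τ j) : ℤ))).toNat) = g := by
      funext j
      rw [← he j]
      exact Int.toNat_natCast _
    show (fun j => (σ * c0 * (v (τ j) + (n (τ j) : ℤ))).toNat) ∈ _
    rw [e]
    exact ⟨fun j => key (v (τ j)) (n (τ j)) (g j) (hn _) (hpos g hg j) (he j), hg⟩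
  · rintro n ⟨hn, g, hg, he⟩ n' ⟨hn', g', hg', he'⟩ heq
    have e : g = g' := by
      funext j
      have h1 := congrFun heq j
      simp only at h1
      rw [← he j, ← he' j, Int.toNat_natCast, Int.toNat_natCast] at h1
      exact h1
    subst e
    funext i
    obtain ⟨j, rfl⟩ := hτ i
    have h1 := (he j).symm.trans (he' j)
    have h2 : σ * (c0 : ℤ) ≠ 0 := by
      rcases hσ with h | h <;> rw [h] <;> omega
    have h3 := mul_left_cancel₀ h2 h1
    have h4 : (n (τ j) : ℤ) = n' (τ j) := by linarith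
    exact_mod_cast h4

/-- the sub-pattern given by increasing positions -/
theorem sub_mem (l : List ℤ) : ∀ (n : ℕ) (y : ℕ → ℕ), (∀ i < n, y i < y (i + 1)) → y n ≤ l.length →
    ((l.take (y 0)).sum, (List.range n).map fun i =>
      (l.take (y (i + 1))).sum - (l.take (y i)).sum) ∈ sub l := by
  induction l with
  | nil =>
    intro n y hy hn
    rw [List.length_nil] at hn
    cases n with
    | zero => simp [sub]
    | succ n =>
      have := hy n (by omega)
      omega
  | cons a l ih =>
    intro n y hy hn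
    rw [List.length_cons] at hn
    have hmono : ∀ i ≤ n, y 0 + i ≤ y i := by
      intro i
      induction i with
      | zero => intro _; omega
      | succ i ih =>
        intro hi
        have h1 := ih (by omega)
        have h2 := hy i (by omega)
        omega
    have htake : ∀ i : ℕ, 1 ≤ i → ((a :: l).take i).sum = a + (l.take (i - 1)).sum := by
      intro i hi
      obtain ⟨j, rfl⟩ : ∃ j, i = j + 1 := ⟨i - 1, by omega⟩
      simp
    rw [sub, List.mem_append]
    rcases Nat.eq_zero_or_pos (y 0) with h0 | h0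
    · right
      cases n with
      | zero =>
        rw [h0]
        simp
      | succ n =>
        have h1 := ih n (fun i => y (i + 1) - 1) (by
          intro i hi
          have h2 := hy (i + 1) (by omega)
          have h3 := hmono (i + 1) (by omega)
          omega) (by omega)
        refine List.mem_cons_of_mem _ (List.mem_map.2 ⟨_, h1, ?_⟩)
        simp only [Prod.mk.injEq]
        refine ⟨by rw [h0]; simp, ?_⟩
        rw [List.range_succ_eq_map, List.map_cons, List.map_map]
        congr 1
        · rw [h0, htake (y (0 + 1)) (by have := hmono 1 (by omega); simpa using this.trans' (by omega))]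
          simp
        · refine List.map_congr_left fun i hi => ?_
          rw [List.mem_range] at hi
          have h3 := hmono (i + 1) (by omega)
          have h4 := hmono (i + 1 + 1) (by omega)
          simp only [Function.comp, Nat.succ_eq_add_one]
          rw [htake _ (by omega), htake _ (by omega)]
          ring
    · left
      have h1 := ih n (fun i => y i - 1) (by
        intro i hi
        have h2 := hy i hi
        have h3 := hmono i (by omega)
        omega) (by omega)
      rw [List.mem_map]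
      refine ⟨_, h1, ?_⟩
      simp only [Prod.mk.injEq]
      refine ⟨by rw [htake _ h0], ?_⟩
      refine List.map_congr_left fun i hi => ?_
      rw [List.mem_range] at hi
      have h3 := hmono i (by omega)
      have h4 := hmono (i + 1) (by omega)
      rw [htake _ (by omega), htake _ (by omega)]
      ring

end Pool.Agent.N688.RP
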