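import Pool.Agent.N688.RP.Mean

set_option autoImplicit false

/-!
# The chain argument, with control of the patterns of several differences
-/

open Filter Topology Finset
open scoped BoundedContinuousFunction

namespace Pool.Agent.N688.RP

open Pool.Agent.W634.BQ Pool.Agent.W505.BQ Pool.Agent.W27.FB

/-- the size of a weight under a constraint, with a gap `η` -/
def Val' (c : Con) (η : ℝ) (G : ℤ →ᵇ ℝ) (e : ℕ) : Prop :=
  (∀ n, 0 ≤ G n ∧ G n ≤ 1) ∧ 2 * c.ε * e + η < c.m (c.P ^ e * G)

theorem step' (c : Con) (η : ℝ) (G : ℤ →ᵇ ℝ) (e : ℕ) (a : ℤ) (hV : Val' c η G (e + 1))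
    (ha : |c.m (c.P ^ e * (ind c.S - c.P) * sh a G)| ≤ c.ε)
    (hB : ∀ n, |(c.P ^ (e + 1)) (n + a) - (c.P ^ (e + 1)) n| ≤ c.ε) :
    Val' c η (ind c.S * sh a G) e := by
  obtain ⟨hG, hV⟩ := hV
  refine ⟨fun n => ?_, ?_⟩
  · rw [BoundedContinuousFunction.coe_mul, Pi.mul_apply, sh_apply]
    have h1 := ind_01 c.S n
    have h2 := hG (n + a)
    exact ⟨mul_nonneg h1.1 h2.1, mul_le_one₀ h1.2 h2.1 h2.2⟩
  · have e1 : c.P ^ e * (ind c.S * sh a G) =
        c.P ^ e * (ind c.S - c.P) * sh a G + c.P ^ (e + 1) * sh a G := by ring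
    have h1 : c.m (c.P ^ (e + 1) * G) - c.ε ≤ c.m (c.P ^ (e + 1) * sh a G) := by
      have h2 : c.m (c.P ^ (e + 1) * G) = c.m (sh a (c.P ^ (e + 1) * G)) := (m_sh c.hm a _).symm
      have h3 : c.m (sh a (c.P ^ (e + 1) * G)) - c.m (c.ε • 1) ≤
          c.m (c.P ^ (e + 1) * sh a G) := by
        rw [← map_sub]
        refine m_mono c.hm fun n => ?_
        have h4 := abs_le.1 (hB n)
        have h5 := hG (n + a)
        have h6 := c.hε
        simp only [BoundedContinuousFunction.coe_sub, BoundedContinuousFunction.coe_smul,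
          Pi.sub_apply, BoundedContinuousFunction.coe_one, Pi.one_apply, smul_eq_mul, mul_one,
          sh_apply, BoundedContinuousFunction.coe_mul, Pi.mul_apply]
        nlinarith
      rw [m_const c.hm] at h3
      rw [h2]
      exact h3
    rw [e1, map_add]
    have h2 := abs_le.1 ha
    push_cast at hV
    nlinarith [h2.1]

theorem val_new' (hnul : S_nul) (htrg : S_trg) (c : Con) (k : ℕ) (δ η : ℝ)
    (hδ : δ = c.m (ind c.S)) (h1 : c.ε ≤ δ / 2) (h2 : c.ε * (2 * k + 1) + η < (δ / 2) ^ (k + 1)) :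
    Val' c η (ind c.S) k := by
  refine ⟨ind_01 c.S, ?_⟩
  have hε := c.hε
  have h3 := abs_le.1 (abs_of_happ hnul c 1 (by
    have : co (1 : ℤ →ᵇ ℝ) = 1 := by
      ext n
      simp
    rw [this]
    exact htrg.1) fun n => by simp)
  rw [one_mul, map_sub, ← hδ] at h3
  have h4 := abs_le.1 (abs_of_happ hnul c (c.P ^ k) (trig_pow htrg c.P c.hP k) (pow_abs c k))
  have h5 : c.P ^ k * (ind c.S - c.P) = c.P ^ k * ind c.S - c.P ^ (k + 1) := by ring
  rw [h5, map_sub] at h4
  have h6 := jensen c.hm c.P (fun n => (c.h01 n).1) k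
  have h7 : (δ / 2) ^ (k + 1) ≤ c.m c.P ^ (k + 1) := by
    apply pow_le_pow_left₀ (by linarith)
    linarith [h3.2]
  nlinarith [h4.1]

/-! ### sub-patterns -/

/-- the sub-patterns of a list of gaps: offset and gaps -/
def sub : List ℤ → List (ℤ × List ℤ)
  | [] => [(0, [])]
  | a :: l => (sub l).map (fun s => (a + s.1, s.2)) ++
      ((0, []) :: (sub l).map (fun s => (0, (a + s.1) :: s.2)))

theorem sub_length (l : List ℤ) : (sub l).length ≤ 2 ^ (l.length + 1) - 1 := by
  induction l with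
  | nil => simp [sub]
  | cons a l ih =>
    have h1 : 1 ≤ 2 ^ (l.length + 1) := Nat.one_le_two_pow
    simp only [sub, List.length_append, List.length_map, List.length_cons]
    rw [pow_succ 2 (l.length + 1)]
    omega

theorem sub_nil_prefix (l : List ℤ) : ∀ o : ℤ, (o, []) ∈ sub l → ∃ p : List ℤ, p <+: l ∧ o = p.sum := by
  induction l with
  | nil =>
    intro o h
    simp only [sub, List.mem_singleton, Prod.mk.injEq, and_true] at h
    exact ⟨[], List.nil_prefix, by simp [h]⟩
  | cons a l ih =>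
    intro o h
    simp only [sub, List.mem_append, List.mem_map, List.mem_cons, Prod.mk.injEq, and_true,
      Prod.exists] at h
    rcases h with ⟨o', g, h1, h2, h3⟩ | h | ⟨o', g, h1, h2, h3⟩
    · subst h3
      obtain ⟨p, hp, h4⟩ := ih o' h1
      exact ⟨a :: p, (List.prefix_cons_inj a).2 hp, by rw [List.sum_cons, ← h4, h2]⟩
    · exact ⟨[], List.nil_prefix, by simp [h]⟩
    · simp at h3

variable (K : ℕ) (Q : Set (List ℤ))

open Classical in
/-- the indicator of the completions of a pattern `g` which are in `Q`, read from the right -/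
noncomputable def F (g : List ℤ) : List ℤ → ℝ := fun h => if g.reverse ++ h ∈ Q then 1 else 0

theorem F_abs (g h : List ℤ) : |F Q g h| ≤ 1 := by
  unfold F
  split_ifs <;> simp

theorem F_bd (g : List ℤ) : Bd (F Q g) := ⟨1, F_abs Q g⟩

theorem F_nonneg (g h : List ℤ) : 0 ≤ F Q g h := by
  unfold F
  split_ifs <;> simp

theorem F_cons (g : List ℤ) (x : ℤ) (h : List ℤ) : F Q g (x :: h) = F Q (x :: g) h := by
  unfold F
  have e : g.reverse ++ x :: h = (x :: g).reverse ++ h := by simp
  rw [e]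

/-- the contribution of a pattern of which the rightmost gap is chosen -/
noncomputable def term (ms : List Mn) (o : ℤ) (g : List ℤ) : ℝ :=
  if g.length = 0 then 0 else if g.length ≤ K then V ms (K - g.length) o (F Q g) else 0

theorem term_abs (ms : List Mn) (o : ℤ) (g : List ℤ) : |term K Q ms o g| ≤ 2 ^ ms.length := by
  unfold term
  split_ifs
  · simp
  · have := V_abs ms (K - g.length) o (F Q g) 1 (F_abs Q g)
    simpa using this
  · simp

theorem term_nonneg (ms : List Mn) (o : ℤ) (g : List ℤ) : 0 ≤ term K Q ms o g := by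
  unfold term
  split_ifs
  · exact le_refl _
  · exact V_nonneg ms _ o (F_bd Q g) (F_nonneg Q g)
  · exact le_refl _

theorem term_nil (ms : List Mn) (o : ℤ) : term K Q ms o [] = 0 := by
  unfold term
  simp

theorem term_bd1 (ms : List Mn) (o : ℤ) (g : List ℤ) : Bd (fun x : ℤ => term K Q ms (x + o) g) :=
  ⟨_, fun x => term_abs K Q ms (x + o) g⟩

theorem term_bd2 (ms : List Mn) (o o' : ℤ) (g : List ℤ) :
    Bd (fun x : ℤ => term K Q ms o' ((x + o) :: g)) :=
  ⟨_, fun x => term_abs K Q ms o' _⟩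

/-- the contributions after the choice of one more point `x` -/
noncomputable def old (ms : List Mn) (s : ℤ × List ℤ) (x : ℤ) : ℝ :=
  term K Q ms (x + s.1) s.2 + if s.2 = [] then 0 else term K Q ms 0 ((x + s.1) :: s.2)

theorem old_bd (ms : List Mn) (s : ℤ × List ℤ) : Bd (old K Q ms s) := by
  by_cases h : s.2 = []
  · have e : old K Q ms s = fun x => term K Q ms (x + s.1) s.2 + 0 := by
      funext x
      unfold old
      rw [if_pos h]
    rw [e]
    exact (term_bd1 K Q ms s.1 s.2).add (Bd.const 0)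
  · have e : old K Q ms s = fun x => term K Q ms (x + s.1) s.2 +
        term K Q ms 0 ((x + s.1) :: s.2) := by
      funext x
      unfold old
      rw [if_neg h]
    rw [e]
    exact (term_bd1 K Q ms s.1 s.2).add (term_bd2 K Q ms s.1 0 s.2)

theorem old_nonneg (ms : List Mn) (s : ℤ × List ℤ) (x : ℤ) : 0 ≤ old K Q ms s x := by
  unfold old
  have h1 := term_nonneg K Q ms (x + s.1) s.2
  split_ifs
  · simpa using h1
  · exact add_nonneg h1 (term_nonneg K Q ms _ _)

theorem term_cons (m : Mn) (ms : List Mn) (s : ℤ × List ℤ) :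
    term K Q (m :: ms) s.1 s.2 = mm m (old K Q ms s) := by
  obtain ⟨o, g⟩ := s
  simp only
  by_cases hg : g = []
  · subst hg
    have e : old K Q ms (o, []) = fun _ => 0 := by
      funext x
      unfold old
      simp [term_nil]
    rw [e, mm_const, term_nil]
  have hl : g.length ≠ 0 := by
    rw [Ne, List.length_eq_zero_iff]
    exact hg
  have e : old K Q ms (o, g) = fun x => term K Q ms (x + o) g + term K Q ms 0 ((x + o) :: g) := by
    funext x
    unfold old
    simp only
    rw [if_neg hg]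
  rw [e]
  rcases lt_trichotomy g.length K with h | h | h
  · obtain ⟨r, hr⟩ : ∃ r, K - g.length = r + 1 := ⟨K - g.length - 1, by omega⟩
    have e1 : term K Q (m :: ms) o g = V (m :: ms) (r + 1) o (F Q g) := by
      unfold term
      rw [if_neg hl, if_pos h.le, hr]
    rw [e1, V_cons]
    congr 1
    funext x
    have e2 : term K Q ms (x + o) g = V ms (r + 1) (x + o) (F Q g) := by
      unfold term
      rw [if_neg hl, if_pos h.le, hr]
    have e3 : term K Q ms 0 ((x + o) :: g) = V ms r 0 (F Q ((x + o) :: g)) := by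
      unfold term
      rw [if_neg (by simp), if_pos (by simp; omega)]
      congr 1
      simp
      omega
    rw [e2, e3]
    congr 1
    congr 1
    funext h'
    exact F_cons Q g (x + o) h'
  · have e1 : ∀ ms' : List Mn, ∀ o' : ℤ, term K Q ms' o' g = F Q g [] := by
      intro ms' o'
      unfold term
      rw [if_neg hl, if_pos h.le, h, Nat.sub_self, V_zero]
    have e2 : ∀ x, term K Q ms 0 ((x + o) :: g) = 0 := by
      intro x
      unfold term
      rw [if_neg (by simp), if_neg (by simp; omega)]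
    rw [e1]
    have e3 : (fun x => term K Q ms (x + o) g + term K Q ms 0 ((x + o) :: g)) =
        fun _ => F Q g [] := by
      funext x
      rw [e1, e2, add_zero]
    rw [e3, mm_const]
  · have e1 : ∀ ms' : List Mn, ∀ o' : ℤ, term K Q ms' o' g = 0 := by
      intro ms' o'
      unfold term
      rw [if_neg hl, if_neg (by omega)]
    have e2 : ∀ x, term K Q ms 0 ((x + o) :: g) = 0 := by
      intro x
      unfold term
      rw [if_neg (by simp), if_neg (by simp; omega)]
    rw [e1]
    have e3 : (fun x => term K Q ms (x + o) g + term K Q ms 0 ((x + o) :: g)) =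
        fun _ => (0 : ℝ) := by
      funext x
      rw [e1, e2, add_zero]
    rw [e3, mm_const]

/-- the potential of a list of gaps -/
noncomputable def Pot (ms : List Mn) (l : List ℤ) : ℝ :=
  ((sub l).map fun s => term K Q ms s.1 s.2).sum

theorem list_mm_sum (m : Mn) {ι : Type} (f : ι → ℤ → ℝ) (hf : ∀ i, Bd (f i)) (s : List ι) :
    Bd (fun x => (s.map fun i => f i x).sum) ∧
      mm m (fun x => (s.map fun i => f i x).sum) = (s.map fun i => mm m (f i)).sum := by
  induction s with
  | nil => exact ⟨by simpa using Bd.const (α := ℤ) 0, by simpa using mm_const m 0⟩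
  | cons a s ih =>
    simp only [List.map_cons, List.sum_cons]
    exact ⟨(hf a).add ih.1, by rw [mm_add m (hf a) ih.1, ih.2]⟩

theorem Pot_cons (m : Mn) (ms : List Mn) (l : List ℤ) :
    Pot K Q (m :: ms) l = mm m (fun x => ((sub l).map fun s => old K Q ms s x).sum) := by
  rw [(list_mm_sum m (fun s => old K Q ms s) (fun s => old_bd K Q ms s) (sub l)).2]
  unfold Pot
  congr 1
  refine List.map_congr_left fun s _ => ?_
  exact term_cons K Q m ms s

theorem list_sum_le {ι : Type} (f g : ι → ℝ) (C : ℝ) (s : List ι)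
    (h : ∀ i ∈ s, f i ≤ g i + C) :
    (s.map f).sum ≤ (s.map g).sum + s.length * C := by
  induction s with
  | nil => simp
  | cons a s ih =>
    have h1 := h a List.mem_cons_self
    have h2 := ih fun i hi => h i (List.mem_cons_of_mem a hi)
    simp only [List.map_cons, List.sum_cons, List.length_cons]
    push_cast
    linarith

theorem Pot_step (ms : List Mn) (l : List ℤ) (x : ℤ) (κ : ℝ) (hκ : 0 ≤ κ)
    (h : ∀ p : List ℤ, p <+: l → term K Q ms 0 [x + p.sum] ≤ κ) :
    Pot K Q ms (x :: l) ≤ ((sub l).map fun s => old K Q ms s x).sum + (sub l).length * κ := by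
  have e : Pot K Q ms (x :: l) =
      ((sub l).map fun s => term K Q ms (x + s.1) s.2 + term K Q ms 0 ((x + s.1) :: s.2)).sum := by
    unfold Pot
    rw [sub, List.map_append, List.sum_append, List.map_cons, List.sum_cons, List.map_map,
      List.map_map, term_nil, zero_add]
    rw [← List.sum_map_add]
    rfl
  rw [e]
  refine list_sum_le _ _ κ _ fun s hs => ?_
  unfold old
  by_cases h1 : s.2 = []
  · rw [if_pos h1, h1, add_zero]
    obtain ⟨o, g⟩ := s
    simp only at h1
    subst h1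
    obtain ⟨p, hp, h2⟩ := sub_nil_prefix l o hs
    have h3 := h p hp
    simp only
    rw [h2]
    linarith
  · rw [if_neg h1]
    linarith

theorem Pot_nonneg (ms : List Mn) (l : List ℤ) : 0 ≤ Pot K Q ms l := by
  unfold Pot
  apply List.sum_nonneg
  intro y hy
  obtain ⟨s, _, rfl⟩ := List.mem_map.1 hy
  exact term_nonneg K Q ms s.1 s.2

/-- no complete pattern if the potential is less than one -/
theorem Pot_nil (l : List ℤ) (h : Pot K Q [] l < 1) (hK : 1 ≤ K) :
    ∀ s ∈ sub l, s.2.length = K → s.2.reverse ∉ Q := by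
  intro s hs hl hQ
  have h1 : term K Q [] s.1 s.2 = 1 := by
    unfold term
    rw [if_neg (by omega), if_pos hl.le, hl, Nat.sub_self, V_zero]
    unfold F
    rw [List.append_nil, if_pos hQ]
  have h2 : term K Q [] s.1 s.2 ≤ Pot K Q [] l := by
    unfold Pot
    refine List.single_le_sum (l := (sub l).map fun s => term K Q [] s.1 s.2) ?_ _
      (List.mem_map.2 ⟨s, hs, rfl⟩)
    intro y hy
    obtain ⟨s, _, rfl⟩ := List.mem_map.1 hy
    exact term_nonneg K Q [] s.1 s.2
  linarith

/-- a context: a constraint, a gap, a weight and an exponent -/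
structure Cx where
  c : Con
  η : ℝ
  G : ℤ →ᵇ ℝ
  e : ℕ

/-- the mean of a context -/
def Cx.mn (s : Cx) : Mn := ⟨s.c.m, s.c.hm⟩

/-- the product of the gaps -/
noncomputable def pr (ctx : List Cx) : ℝ := (ctx.map Cx.η).prod

theorem pr_pos (ctx : List Cx) (h : ∀ s ∈ ctx, 0 < s.η) : 0 < pr ctx := by
  unfold pr
  apply List.prod_pos
  intro y hy
  obtain ⟨s, hs, rfl⟩ := List.mem_map.1 hy
  exact h s hs

/-- the induction -/
theorem chainP (hnul : S_nul) (hmean : S_mean) (htrg : S_trg) (hbohr : S_bohr) (happr : S_appr)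
    (D₀ : Set ℤ) (D : ℝ → Set ℤ) (hD0 : ∀ κ, D κ ⊆ D₀)
    (hDn : ∀ κ : ℝ, 0 < κ → ∀ (T : Finset Circle) (ρ : ℝ), 0 < ρ → ¬ Null (D κ ∩ Bo T ρ))
    (hDt : ∀ κ : ℝ, 0 < κ → ∀ d ∈ D κ, ∀ ms : List Mn, term K Q ms 0 [d] ≤ 2 ^ ms.length * κ)
    (k : ℕ) :
    ∀ ctx : List Cx, (∀ s ∈ ctx, 0 < s.η ∧ Val' s.c s.η s.G (s.e + k)) →
      ∃ l : List ℤ, l.length = k ∧ Good D₀ l ∧
        (∀ s ∈ ctx, Val' s.c s.η (upd s.c.S l s.G) s.e) ∧
        Pot K Q (ctx.map Cx.mn) l ≤ pr ctx * (((k : ℝ) + 1) / ((ctx.length : ℝ) + k + 2)) := by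
  induction k with
  | zero =>
    intro ctx h
    refine ⟨[], rfl, trivial, fun s hs => (h s hs).2, ?_⟩
    have h1 : Pot K Q (ctx.map Cx.mn) [] = 0 := by
      unfold Pot
      simp [sub, term_nil]
    have h2 := pr_pos ctx fun s hs => (h s hs).1
    rw [h1]
    positivity
  | succ k ih =>
    intro ctx h
    have hpr := pr_pos ctx fun s hs => (h s hs).1
    -- the Bohr set
    obtain ⟨T, ρ, hρ, hB⟩ := inter_bohr ctx
      (fun s a => ∀ n, |(s.c.P ^ (s.e + 1)) (n + a) - (s.c.P ^ (s.e + 1)) n| ≤ s.c.ε) (by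
        intro s _
        obtain ⟨T, ρ, hρ, h1⟩ := hbohr _ (trig_pow htrg s.c.P s.c.hP (s.e + 1)) s.c.ε s.c.hε
        refine ⟨T, ρ, hρ, fun a ha n => ?_⟩
        have h2 := h1 a ha n
        rw [co_apply, co_apply, ← Complex.ofReal_sub, Complex.norm_real, Real.norm_eq_abs] at h2
        exact h2)
    -- the colour
    obtain ⟨κ, hκ⟩ : ∃ κ : ℝ, κ = pr ctx / (((ctx.length : ℝ) + k + 3) * 2 ^ (k + 1 + ctx.length)) :=
      ⟨_, rfl⟩
    have hκ0 : 0 < κ := by rw [hκ]; positivity
    -- the new mean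
    obtain ⟨m, hm, hext, hpos⟩ := hmean (D κ ∩ Bo T ρ) (hDn κ hκ0 T ρ hρ)
    obtain ⟨δ, hδ⟩ : ∃ δ, δ = m (ind (D κ ∩ Bo T ρ)) := ⟨_, rfl⟩
    rw [← hδ] at hpos
    obtain ⟨η, hη⟩ : ∃ η : ℝ, η = (δ / 2) ^ (k + 1) / 2 := ⟨_, rfl⟩
    have hη0 : 0 < η := by rw [hη]; positivity
    obtain ⟨ε, hε, hε1, hε2⟩ : ∃ ε : ℝ, 0 < ε ∧ ε ≤ δ / 2 ∧
        ε * (2 * k + 1) + η < (δ / 2) ^ (k + 1) := by
      have h1 : 0 < (δ / 2) ^ (k + 1) := by positivity
      refine ⟨min (δ / 2) ((δ / 2) ^ (k + 1) / (4 * (2 * k + 1))), by positivity,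
        min_le_left _ _, ?_⟩
      have h2 : (0 : ℝ) < 2 * k + 1 := by positivity
      have h3 : min (δ / 2) ((δ / 2) ^ (k + 1) / (4 * (2 * k + 1))) * (2 * k + 1) ≤
          (δ / 2) ^ (k + 1) / 4 := by
        calc _ ≤ ((δ / 2) ^ (k + 1) / (4 * (2 * k + 1))) * (2 * k + 1) :=
              mul_le_mul_of_nonneg_right (min_le_right _ _) h2.le
          _ = (δ / 2) ^ (k + 1) / 4 := by field_simp
      rw [hη]
      linarith
    obtain ⟨P, hP, h01, happ⟩ := happr m hm hext (D κ ∩ Bo T ρ) ε hε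
    let c : Con := ⟨m, D κ ∩ Bo T ρ, P, ε, hm, hε, hP, h01, happ⟩
    have hVc : Val' c η (ind c.S) k := val_new' hnul htrg c k δ η hδ hε1 hε2
    obtain ⟨l, hl, hgood, hctx, hpot⟩ := ih ((⟨c, η, ind c.S, 0⟩ : Cx) ::
      ctx.map fun s => (⟨s.c, s.η, s.G, s.e + 1⟩ : Cx)) (by
        intro s hs
        rcases List.mem_cons.1 hs with rfl | h1
        · refine ⟨hη0, ?_⟩
          change Val' c η (ind c.S) (0 + k)
          rw [zero_add]
          exact hVc
        · obtain ⟨t, ht, rfl⟩ := List.mem_map.1 h1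
          refine ⟨(h t ht).1, ?_⟩
          have h2 := (h t ht).2
          have h3 : t.e + (k + 1) = t.e + 1 + k := by ring
          rw [h3] at h2
          exact h2)
    have hnew : Val' c η (upd c.S l (ind c.S)) 0 := hctx ⟨c, η, ind c.S, 0⟩ List.mem_cons_self
    have hold : ∀ s ∈ ctx, Val' s.c s.η (upd s.c.S l s.G) (s.e + 1) := fun s hs =>
      hctx ⟨s.c, s.η, s.G, s.e + 1⟩ (List.mem_cons_of_mem _ (List.mem_map.2 ⟨s, hs, rfl⟩))
    -- the null set
    obtain ⟨N, hN, hNs⟩ := union_null hnul ctx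
      (fun s => {a : ℤ | s.c.ε <
        |s.c.m (s.c.P ^ s.e * (ind s.c.S - s.c.P) * sh a (upd s.c.S l s.G))|}) (by
        intro s hs
        refine s.c.happ _ (trig_pow htrg s.c.P s.c.hP _) (pow_abs s.c _) _ fun n => ?_
        have h1 := (hold s hs).1 n
        rw [abs_of_nonneg h1.1]
        exact h1.2)
    -- the means and the products
    have e1 : ((⟨c, η, ind c.S, 0⟩ : Cx) :: ctx.map fun s => (⟨s.c, s.η, s.G, s.e + 1⟩ : Cx)).map
        Cx.mn = (⟨c.m, c.hm⟩ : Mn) :: ctx.map Cx.mn := by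
      rw [List.map_cons, List.map_map]
      rfl
    have e2 : pr ((⟨c, η, ind c.S, 0⟩ : Cx) :: ctx.map fun s => (⟨s.c, s.η, s.G, s.e + 1⟩ : Cx)) =
        η * pr ctx := by
      unfold pr
      rw [List.map_cons, List.map_map, List.prod_cons]
      rfl
    rw [e1, e2, Pot_cons, List.length_cons, List.length_map] at hpot
    obtain ⟨θ, hθ⟩ : ∃ θ : ℝ, θ = pr ctx * (((k : ℝ) + 1) / ((ctx.length : ℝ) + k + 3)) := ⟨_, rfl⟩
    have hθ0 : 0 < θ := by rw [hθ]; positivity
    have e3 : η * pr ctx * (((k : ℝ) + 1) / (((ctx.length + 1 : ℕ) : ℝ) + k + 2)) = η * θ := by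
      rw [hθ]
      push_cast
      have : (ctx.length : ℝ) + 1 + k + 2 = (ctx.length : ℝ) + k + 3 := by ring
      rw [this]
      ring
    rw [e3] at hpot
    obtain ⟨O, hO⟩ : ∃ O : ℤ → ℝ, O = fun x => ((sub l).map fun s =>
      old K Q (ctx.map Cx.mn) s x).sum := ⟨_, rfl⟩
    have hO0 : ∀ x, 0 ≤ O x := by
      intro x
      rw [hO]
      apply List.sum_nonneg
      intro y hy
      obtain ⟨s, _, rfl⟩ := List.mem_map.1 hy
      exact old_nonneg K Q _ s x
    have hOb : Bd O := by
      rw [hO]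
      exact (list_mm_sum ⟨c.m, c.hm⟩ (fun s => old K Q (ctx.map Cx.mn) s)
        (fun s => old_bd K Q _ s) (sub l)).1
    rw [← hO] at hpot
    obtain ⟨x, hxN, hx, hxO⟩ : ∃ x, x ∉ N ∧ upd c.S l (ind c.S) x ≠ 0 ∧ O x ≤ θ := by
      by_contra hcon
      push Not at hcon
      have h1 : c.m (θ • (upd c.S l (ind c.S) - ind N)) ≤ c.m (bcf O) := by
        refine m_mono c.hm fun n => ?_
        rw [bcf_apply hOb]
        simp only [BoundedContinuousFunction.coe_smul, BoundedContinuousFunction.coe_sub,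
          Pi.sub_apply, smul_eq_mul]
        have h2 := hnew.1 n
        have h3 := hO0 n
        by_cases hn : n ∈ N
        · rw [ind_mem hn]
          nlinarith [h2.2]
        · rw [ind_notMem hn, sub_zero]
          by_cases h4 : upd c.S l (ind c.S) n = 0
          · rw [h4, mul_zero]
            exact h3
          · have h5 := hcon n hn h4
            nlinarith [h2.2]
      have h2 := hnul.1 c.m c.hm N hN
      have h3 := hnew.2
      rw [pow_zero, one_mul] at h3
      rw [map_smul, map_sub, h2, sub_zero, smul_eq_mul] at h1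
      have h4 : c.m (bcf O) ≤ η * θ := hpot
      simp only [Nat.cast_zero, mul_zero, zero_add] at h3
      nlinarith
    have hpre := upd_ne c.S l x hx
    refine ⟨x :: l, by rw [List.length_cons, hl], ⟨fun p hp => hD0 κ (hpre p hp).1, hgood⟩, ?_, ?_⟩
    · intro s hs
      rw [upd_cons]
      have hxS : x ∈ Bo T ρ := by
        have h1 := hpre [] List.nil_prefix
        rw [List.sum_nil, add_zero] at h1
        exact h1.2
      refine step' s.c s.η _ s.e x (hold s hs) ?_ (hB x hxS s hs)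
      have h1 : x ∉ {a : ℤ | s.c.ε <
          |s.c.m (s.c.P ^ s.e * (ind s.c.S - s.c.P) * sh a (upd s.c.S l s.G))|} :=
        fun h => hxN (hNs s hs h)
      rw [Set.mem_ofPred_eq, not_lt] at h1
      exact h1
    · have h1 := Pot_step K Q (ctx.map Cx.mn) l x (2 ^ ctx.length * κ) (by positivity) (by
        intro p hp
        have h2 := hDt κ hκ0 _ (hpre p hp).1 (ctx.map Cx.mn)
        rwa [List.length_map] at h2)
      have h2 : ((sub l).map fun s => old K Q (ctx.map Cx.mn) s x).sum = O x := by rw [hO]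
      rw [h2] at h1
      have h3 : ((sub l).length : ℝ) ≤ 2 ^ (k + 1) := by
        have h4 := sub_length l
        rw [hl] at h4
        have h5 : (sub l).length ≤ 2 ^ (k + 1) := h4.trans (Nat.sub_le _ _)
        exact_mod_cast h5
      have h4 : ((sub l).length : ℝ) * (2 ^ ctx.length * κ) ≤ pr ctx / ((ctx.length : ℝ) + k + 3) := by
        calc _ ≤ (2 : ℝ) ^ (k + 1) * (2 ^ ctx.length * κ) :=
              mul_le_mul_of_nonneg_right h3 (by positivity)
          _ = pr ctx / ((ctx.length : ℝ) + k + 3) := by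
            rw [hκ]
            have : (2 : ℝ) ^ (k + 1 + ctx.length) = 2 ^ (k + 1) * 2 ^ ctx.length := pow_add _ _ _
            rw [this]
            field_simp
      refine h1.trans ((add_le_add hxO h4).trans (le_of_eq ?_))
      rw [hθ]
      push_cast
      have : (ctx.length : ℝ) + (k + 1) + 2 = (ctx.length : ℝ) + k + 3 := by ring
      rw [this]
      field_simp

/-- the structure theorem -/
theorem chain_main (hnul : S_nul) (hmean : S_mean) (htrg : S_trg) (hbohr : S_bohr)
    (happr : S_appr) (hK : 1 ≤ K)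
    (D₀ : Set ℤ) (D : ℝ → Set ℤ) (hD0 : ∀ κ, D κ ⊆ D₀)
    (hDn : ∀ κ : ℝ, 0 < κ → ∀ (T : Finset Circle) (ρ : ℝ), 0 < ρ → ¬ Null (D κ ∩ Bo T ρ))
    (hDt : ∀ κ : ℝ, 0 < κ → ∀ d ∈ D κ, ∀ ms : List Mn, term K Q ms 0 [d] ≤ 2 ^ ms.length * κ)
    (k : ℕ) : ∃ l : List ℤ, l.length = k ∧ Good D₀ l ∧
      ∀ s ∈ sub l, s.2.length = K → s.2.reverse ∉ Q := by
  obtain ⟨l, h1, h2, _, h3⟩ := chainP K Q hnul hmean htrg hbohr happr D₀ D hD0 hDn hDt k [] (by simp)
  refine ⟨l, h1, h2, Pot_nil K Q l ?_ hK⟩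
  refine lt_of_le_of_lt h3 ?_
  unfold pr
  simp only [List.map_nil, List.prod_nil, one_mul, List.length_nil, Nat.cast_zero, zero_add]
  rw [div_lt_one (by positivity)]
  linarith

end Pool.Agent.N688.RP
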