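import Pool.Agent.N688.RP.Side
import Pool.Agent.N688.RP.Block

set_option autoImplicit false

/-!
# Gaps before and after almost every element of a Bohr neighbourhood
-/

open Filter Topology Finset

namespace Pool.Agent.N688.RP

open Pool.Agent.W634.BQ Pool.Agent.W505.BQ Pool.Agent.W27.FB Pool.Agent.W142.TF
open Pool.Agent.H947R3.GM Pool.Agent.H732R3.BigQ

/-- the first entries of the vectors in `R` which are `a` modulo `q`, have the gaps `w` and have all
their differences in `A` -/
def Vecs {n : ℕ} (R : Set (Fin (n + 1) → ℕ)) (q a : ℕ) (A : Set ℕ) (w : Fin n → ℕ) : Set ℕ :=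
  {p | ∃ v ∈ R, v 0 = p ∧ (∀ j, v j ≡ a [MOD q]) ∧ (∀ j : Fin n, v j.succ = v j.castSucc + w j) ∧
    ∀ i j, i < j → v j - v i ∈ A}

/-- `w` is the vector of the gaps of many such vectors -/
def Often {n : ℕ} (R : Set (Fin (n + 1) → ℕ)) (q a : ℕ) (A : Set ℕ) (w : Fin n → ℕ) : Prop :=
  Big (Vecs R q a A w)

theorem often_pos {n m : ℕ} {R : Set (Fin (n + 1) → ℕ)} (hR : Una m R) {q a : ℕ} {A : Set ℕ}
    {w : Fin n → ℕ} (h : Often R q a A w) (j : Fin n) : 0 < w j := by
  obtain ⟨p, v, hv, _, _, h2, _⟩ := h.infinite.nonempty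
  have h3 := h2 j
  have h4 : v j.castSucc < v j.succ := (hR.1 v hv).1 Fin.castSucc_lt_succ
  omega

/-- the block in a family of points given by a list -/
theorem fin_abs {k : ℕ} {R : Set (Fin (k + 1) → ℕ)} (q a : ℕ) (A : Set ℕ) (T K : ℕ)
    (hcon : ∀ H : Fin T → Fin K → ℕ, AdmN q H →
      ∃ x : Fin (k + 1) → Fin T × Fin K, (∀ i j, i < j → H (x i).1 (x i).2 < H (x j).1 (x j).2) ∧
        Big {n : ℕ | n ≡ a [MOD q] ∧
          (fun j => n + q * (H (x j).1 (x j).2 - H (x 0).1 (x 0).2)) ∈ R})
    (σ : ℤ) (l : List ℤ) (hl : l.length = T * K)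
    (hgood : Good {d : ℤ | 0 < σ * d ∧ (((q * (T * K).factorial : ℕ) : ℤ) * d).natAbs ∈ A} l) :
    ∃ pos : Fin (k + 1) → ℕ, (∀ j, pos j < T * K) ∧
      (∀ i j, i < j → (σ = 1 → pos i < pos j) ∧ (σ = -1 → pos j < pos i)) ∧
      ∃ w : Fin k → ℕ, Often R q a A w ∧ ∀ j : Fin k,
        (w j : ℤ) = ((q * (T * K).factorial : ℕ) : ℤ) *
          ((l.take (pos j.succ)).sum - (l.take (pos j.castSucc)).sum) := by
  classical
  obtain ⟨E, hE⟩ : ∃ E : Set ℤ, E = {d : ℤ | 0 < σ * d ∧
      (((q * (T * K).factorial : ℕ) : ℤ) * d).natAbs ∈ A} := ⟨_, rfl⟩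
  rw [← hE] at hgood
  have h0 : (0 : ℤ) ∉ E := by
    rw [hE]
    rintro ⟨h, -⟩
    rw [mul_zero] at h
    exact lt_irrefl _ h
  have hs := Pool.Agent.TH402.FB.good_sums l hgood
  obtain ⟨P, hP⟩ : ∃ P : ℕ → ℤ, P = fun i => (l.take i).sum := ⟨_, rfl⟩
  have hPE : ∀ i j : ℕ, i < j → j ≤ T * K → P j - P i ∈ E := by
    intro i j hij hj
    rw [hP]
    exact hs i j hij (by omega)
  obtain ⟨B, hB⟩ : ∃ B : ℕ → ℕ → ℤ, B = fun g i => if g < T then P (g * K + i) else i := ⟨_, rfl⟩
  have hlt : ∀ g < T, ∀ i < K, g * K + i < T * K := by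
    intro g hg i hi
    have h1 : (g + 1) * K ≤ T * K := Nat.mul_le_mul_right _ hg
    rw [Nat.add_mul, one_mul] at h1
    omega
  have hAE : ∀ g < T, ∀ g' < T, ∀ i < K, ∀ i' < K, g * K + i < g' * K + i' →
      B g' i' - B g i ∈ E := by
    intro g hg g' hg' i hi i' hi' h
    have h2 := hPE (g * K + i) (g' * K + i') h (hlt g' hg' i' hi').le
    rw [hB]
    simp only [hg, hg', if_true]
    exact h2
  have hinj : ∀ j, Set.InjOn (B j) {k | k < K} := by
    intro j k hk k' hk' h
    simp only [Set.mem_ofPred_eq] at hk hk'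
    by_cases hj : j < T
    · rcases lt_trichotomy k k' with hlt | heq | hgt
      · have := hAE j hj j hj k hk k' hk' (by omega)
        rw [h, sub_self] at this
        exact absurd this h0
      · exact heq
      · have := hAE j hj j hj k' hk' k hk (by omega)
        rw [h, sub_self] at this
        exact absurd this h0
    · rw [hB] at h
      simp only [hj, if_false] at h
      exact_mod_cast h
  have hord : ∀ i j, i < j → ∀ k k', k < K → k' < K → i * K + k' < j * K + k := by
    intro i j hij k k' hk hk'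
    have h1 : (i + 1) * K ≤ j * K := Nat.mul_le_mul_right _ hij
    rw [Nat.add_mul, one_mul] at h1
    omega
  obtain ⟨H, C, hH⟩ := points T K (T * K).factorial (fun _ => 1) B
  have hadm : AdmN q H := admN_of (Nat.factorial_pos _)
    (fun p hp hle => Nat.dvd_factorial hp.pos hle) (fun _ => 1) B (fun _ => le_refl 1) hinj
    (fun i j hij hj k k' hk hk' h => by
      have h1 := hAE i (by omega) j hj k' hk' k hk (hord i j hij k k' hk hk')
      have h2 : B j k - B i k' = 0 := by
        push_cast at h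
        linarith
      rw [h2] at h1
      exact h0 h1) H C hH
  obtain ⟨x, hx1, hx2⟩ := hcon H hadm
  obtain ⟨pos, hpos⟩ : ∃ pos : Fin (k + 1) → ℕ, pos = fun j => ((x j).1 : ℕ) * K + (x j).2 := ⟨_, rfl⟩
  have hposlt : ∀ j, pos j < T * K := by
    intro j
    rw [hpos]
    exact hlt _ (x j).1.2 _ (x j).2.2
  have hHP : ∀ j, (H (x j).1 (x j).2 : ℤ) = (T * K).factorial * (P (pos j) + C) := by
    intro j
    rw [hH, hB, hpos]
    simp only [(x j).1.2, if_true]
    push_cast
    ring
  have hMpos : (0 : ℤ) < ((T * K).factorial : ℤ) := by exact_mod_cast Nat.factorial_pos _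
  have hPlt : ∀ i j, i < j → P (pos i) < P (pos j) := by
    intro i j hij
    have h1 : (H (x i).1 (x i).2 : ℤ) < H (x j).1 (x j).2 := by exact_mod_cast hx1 i j hij
    rw [hHP, hHP] at h1
    have h2 := lt_of_mul_lt_mul_left h1 hMpos.le
    linarith
  have hE1 : ∀ d ∈ E, 0 < σ * d := by
    intro d hd
    rw [hE] at hd
    exact hd.1
  have hmono : ∀ i j, i < j → (σ = 1 → pos i < pos j) ∧ (σ = -1 → pos j < pos i) := by
    intro i j hij
    have h1 := hPlt i j hij
    constructor
    · intro h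
      rcases lt_trichotomy (pos i) (pos j) with h2 | h2 | h2
      · exact h2
      · rw [h2] at h1
        exact absurd h1 (lt_irrefl _)
      · have h3 := hE1 _ (hPE (pos j) (pos i) h2 (hposlt i).le)
        rw [h] at h3
        omega
    · intro h
      rcases lt_trichotomy (pos i) (pos j) with h2 | h2 | h2
      · have h3 := hE1 _ (hPE (pos i) (pos j) h2 (hposlt j).le)
        rw [h] at h3
        omega
      · rw [h2] at h1
        exact absurd h1 (lt_irrefl _)
      · exact h2
  have hsub : ∀ i j, i < j → ((q * (H (x j).1 (x j).2 - H (x i).1 (x i).2) : ℕ) : ℤ) =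
      ((q * (T * K).factorial : ℕ) : ℤ) * (P (pos j) - P (pos i)) := by
    intro i j hij
    have h1 := (hx1 i j hij).le
    push_cast [Nat.cast_sub h1]
    rw [hHP, hHP]
    ring
  refine ⟨pos, hposlt, hmono, fun j => q * (H (x j.succ).1 (x j.succ).2 -
    H (x j.castSucc).1 (x j.castSucc).2), ?_, ?_⟩
  · refine Big.mono ?_ hx2
    rintro p ⟨hpa, hpR⟩
    have hle0 : ∀ j, H (x 0).1 (x 0).2 ≤ H (x j).1 (x j).2 := by
      intro j
      rcases Fin.eq_zero_or_eq_succ j with h | ⟨i, h⟩
      · rw [h]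
      · exact (hx1 0 j (by rw [h]; exact Fin.succ_pos i)).le
    refine ⟨_, hpR, ?_, ?_, ?_, ?_⟩
    · simp
    · intro j
      have h2 : q * (H (x j).1 (x j).2 - H (x 0).1 (x 0).2) ≡ 0 [MOD q] := by
        rw [Nat.modEq_zero_iff_dvd]
        exact dvd_mul_right q _
      simpa using hpa.add h2
    · intro j
      simp only
      have h4 := hle0 j.castSucc
      have h5 := (hx1 j.castSucc j.succ Fin.castSucc_lt_succ).le
      have h6 : H (x j.succ).1 (x j.succ).2 - H (x 0).1 (x 0).2 =
          (H (x j.castSucc).1 (x j.castSucc).2 - H (x 0).1 (x 0).2) +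
          (H (x j.succ).1 (x j.succ).2 - H (x j.castSucc).1 (x j.castSucc).2) := by omega
      rw [h6]
      ring
    · intro j l' hjl
      have h4 := hle0 j
      have h5 := (hx1 j l' hjl).le
      have h6 : p + q * (H (x l').1 (x l').2 - H (x 0).1 (x 0).2) -
          (p + q * (H (x j).1 (x j).2 - H (x 0).1 (x 0).2)) =
          q * (H (x l').1 (x l').2 - H (x j).1 (x j).2) := by
        rw [Nat.add_sub_add_left, ← Nat.mul_sub]
        congr 1
        omega
      rw [h6]
      have h7 := hsub j l' hjl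
      -- membership in `A`
      have h8 : ∀ d : ℤ, d ∈ E → (((q * (T * K).factorial : ℕ) : ℤ) * d).natAbs ∈ A := by
        intro d hd
        rw [hE] at hd
        exact hd.2
      rcases lt_trichotomy (pos j) (pos l') with h9 | h9 | h9
      · have h10 := h8 _ (hPE _ _ h9 (hposlt _).le)
        rw [← h7, Int.natAbs_natCast] at h10
        exact h10
      · have h10 := hPlt _ _ hjl
        rw [h9] at h10
        exact absurd h10 (lt_irrefl _)
      · have h10 := h8 _ (hPE _ _ h9 (hposlt _).le)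
        have h11 : ((q * (T * K).factorial : ℕ) : ℤ) *
            (P (pos j) - P (pos l')) =
            -((q * (H (x l').1 (x l').2 -
            H (x j).1 (x j).2) : ℕ) : ℤ) := by
          rw [h7]
          ring
        rw [h11, Int.natAbs_neg, Int.natAbs_natCast] at h10
        exact h10
  · intro j
    have h1 := hsub j.castSucc j.succ Fin.castSucc_lt_succ
    rw [hP] at h1
    exact h1

end Pool.Agent.N688.RP
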