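import Pool.Agent.W27.FB.Chain

set_option autoImplicit false

/-!
# Iterated invariant means of functions of lists of integers
-/

open Filter Topology Finset
open scoped BoundedContinuousFunction

namespace Pool.Agent.N688.RP

open Pool.Agent.W634.BQ Pool.Agent.W505.BQ Pool.Agent.W27.FB

/-- invariant means on the integers -/
abbrev Mn := {m : (ℤ →ᵇ ℝ) →ₗ[ℝ] ℝ // IsMean m}

/-- bounded functions -/
def Bd {α : Type} (f : α → ℝ) : Prop := ∃ C : ℝ, ∀ x, |f x| ≤ C

open Classical in
/-- a bounded function as an element of `ℤ →ᵇ ℝ` -/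
noncomputable def bcf (f : ℤ → ℝ) : ℤ →ᵇ ℝ :=
  if h : Bd f then BoundedContinuousFunction.ofNormedAddCommGroupDiscrete f h.choose
    (fun x => by rw [Real.norm_eq_abs]; exact h.choose_spec x) else 0

theorem bcf_apply {f : ℤ → ℝ} (h : Bd f) (n : ℤ) : bcf f n = f n := by
  unfold bcf
  rw [dif_pos h]
  rfl

/-- the mean of a function -/
noncomputable def mm (m : Mn) (f : ℤ → ℝ) : ℝ := m.1 (bcf f)

theorem Bd.add {α : Type} {f g : α → ℝ} (hf : Bd f) (hg : Bd g) : Bd (fun x => f x + g x) := by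
  obtain ⟨C, hC⟩ := hf
  obtain ⟨D, hD⟩ := hg
  exact ⟨C + D, fun x => (abs_add_le _ _).trans (add_le_add (hC x) (hD x))⟩

theorem Bd.smul {α : Type} {f : α → ℝ} (hf : Bd f) (c : ℝ) : Bd (fun x => c * f x) := by
  obtain ⟨C, hC⟩ := hf
  exact ⟨|c| * C, fun x => by rw [abs_mul]; exact mul_le_mul_of_nonneg_left (hC x) (abs_nonneg c)⟩

theorem Bd.const {α : Type} (c : ℝ) : Bd (fun _ : α => c) := ⟨|c|, fun _ => le_refl _⟩

theorem Bd.comp {α β : Type} {f : β → ℝ} (hf : Bd f) (g : α → β) : Bd (fun x => f (g x)) := by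
  obtain ⟨C, hC⟩ := hf
  exact ⟨C, fun x => hC _⟩

theorem Bd.sum {α ι : Type} {f : ι → α → ℝ} (s : Finset ι) (hf : ∀ i ∈ s, Bd (f i)) :
    Bd (fun x => ∑ i ∈ s, f i x) := by
  classical
  induction s using Finset.induction_on with
  | empty => simpa using Bd.const (α := α) 0
  | insert a s ha ih =>
    have h1 : (fun x => ∑ i ∈ insert a s, f i x) = fun x => f a x + ∑ i ∈ s, f i x := by
      funext x
      rw [sum_insert ha]
    rw [h1]
    exact (hf a (mem_insert_self a s)).add (ih fun i hi => hf i (mem_insert_of_mem hi))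

theorem mm_add (m : Mn) {f g : ℤ → ℝ} (hf : Bd f) (hg : Bd g) :
    mm m (fun x => f x + g x) = mm m f + mm m g := by
  unfold mm
  rw [← map_add]
  congr 1
  ext n
  rw [bcf_apply (hf.add hg), BoundedContinuousFunction.coe_add, Pi.add_apply, bcf_apply hf,
    bcf_apply hg]

theorem mm_smul (m : Mn) {f : ℤ → ℝ} (hf : Bd f) (c : ℝ) :
    mm m (fun x => c * f x) = c * mm m f := by
  unfold mm
  rw [← smul_eq_mul, ← map_smul]
  congr 1
  ext n
  rw [bcf_apply (hf.smul c), BoundedContinuousFunction.coe_smul]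
  show c * f n = c • (bcf f) n
  rw [bcf_apply hf, smul_eq_mul]

theorem mm_const (m : Mn) (c : ℝ) : mm m (fun _ => c) = c := by
  have h1 : bcf (fun _ => c) = c • 1 := by
    ext n
    rw [bcf_apply (Bd.const c)]
    simp
  unfold mm
  rw [h1, m_const m.2]

theorem mm_mono (m : Mn) {f g : ℤ → ℝ} (hf : Bd f) (hg : Bd g) (h : ∀ x, f x ≤ g x) :
    mm m f ≤ mm m g := by
  unfold mm
  refine m_mono m.2 fun n => ?_
  rw [bcf_apply hf, bcf_apply hg]
  exact h n

theorem mm_shift (m : Mn) {f : ℤ → ℝ} (hf : Bd f) (a : ℤ) :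
    mm m (fun x => f (x + a)) = mm m f := by
  unfold mm
  rw [← m_sh m.2 a (bcf f)]
  congr 1
  ext n
  rw [sh_apply, bcf_apply hf, bcf_apply (hf.comp fun x => x + a)]

theorem mm_abs (m : Mn) {f : ℤ → ℝ} {C : ℝ} (h : ∀ x, |f x| ≤ C) : |mm m f| ≤ C := by
  have hf : Bd f := ⟨C, h⟩
  rw [abs_le]
  constructor
  · have h1 := mm_mono m (Bd.const (-C)) hf fun x => (abs_le.1 (h x)).1
    rwa [mm_const] at h1
  · have h1 := mm_mono m hf (Bd.const C) fun x => (abs_le.1 (h x)).2
    rwa [mm_const] at h1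

theorem mm_sum (m : Mn) {ι : Type} {f : ι → ℤ → ℝ} (s : Finset ι) (hf : ∀ i ∈ s, Bd (f i)) :
    mm m (fun x => ∑ i ∈ s, f i x) = ∑ i ∈ s, mm m (f i) := by
  classical
  induction s using Finset.induction_on with
  | empty => simpa using mm_const m 0
  | insert a s ha ih =>
    have h1 : (fun x => ∑ i ∈ insert a s, f i x) = fun x => f a x + ∑ i ∈ s, f i x := by
      funext x
      rw [sum_insert ha]
    have h2 : ∀ i ∈ s, Bd (f i) := fun i hi => hf i (mem_insert_of_mem hi)
    rw [h1, sum_insert ha, mm_add m (hf a (mem_insert_self a s)) (Bd.sum s h2), ih h2]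

/-- the sum, over the choices of `r` of the means, of the iterated means of `f`; the first chosen
variable is shifted by `o` and by the variables which are not chosen -/
noncomputable def V : List Mn → ℕ → ℤ → (List ℤ → ℝ) → ℝ
  | [], 0, _, f => f []
  | [], _ + 1, _, _ => 0
  | _ :: _, 0, _, f => f []
  | m :: ms, r + 1, o, f =>
    mm m (fun x => V ms (r + 1) (x + o) f + V ms r 0 (fun h => f ((x + o) :: h)))

theorem V_zero (ms : List Mn) (o : ℤ) (f : List ℤ → ℝ) : V ms 0 o f = f [] := by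
  cases ms <;> rfl

theorem V_nil (r : ℕ) (o : ℤ) (f : List ℤ → ℝ) : V [] (r + 1) o f = 0 := rfl

theorem V_cons (m : Mn) (ms : List Mn) (r : ℕ) (o : ℤ) (f : List ℤ → ℝ) :
    V (m :: ms) (r + 1) o f =
      mm m (fun x => V ms (r + 1) (x + o) f + V ms r 0 (fun h => f ((x + o) :: h))) := rfl

theorem V_abs (ms : List Mn) : ∀ (r : ℕ) (o : ℤ) (f : List ℤ → ℝ) (C : ℝ), (∀ h, |f h| ≤ C) →
    |V ms r o f| ≤ 2 ^ ms.length * C := by
  induction ms with
  | nil =>
    intro r o f C h
    have hC : 0 ≤ C := (abs_nonneg _).trans (h [])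
    cases r with
    | zero => simpa [V_zero] using h []
    | succ r => simpa [V_nil] using hC
  | cons m ms ih =>
    intro r o f C h
    have hC : 0 ≤ C := (abs_nonneg _).trans (h [])
    cases r with
    | zero =>
      rw [V_zero]
      refine (h []).trans ?_
      have : (1 : ℝ) ≤ 2 ^ (m :: ms).length := one_le_pow₀ (by norm_num)
      nlinarith
    | succ r =>
      rw [V_cons]
      refine mm_abs m fun x => (abs_add_le _ _).trans ?_
      have h1 := ih (r + 1) (x + o) f C h
      have h2 := ih r 0 (fun h => f ((x + o) :: h)) C fun h' => h _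
      rw [List.length_cons, pow_succ]
      linarith

theorem V_bd1 (ms : List Mn) (r : ℕ) (o : ℤ) {f : List ℤ → ℝ} (hf : Bd f) :
    Bd (fun x => V ms r (x + o) f) := by
  obtain ⟨C, hC⟩ := hf
  exact ⟨_, fun x => V_abs ms r (x + o) f C hC⟩

theorem V_bd2 (ms : List Mn) (r : ℕ) (o o' : ℤ) {f : List ℤ → ℝ} (hf : Bd f) :
    Bd (fun x => V ms r o' (fun h => f ((x + o) :: h))) := by
  obtain ⟨C, hC⟩ := hf
  exact ⟨_, fun x => V_abs ms r o' _ C fun h => hC _⟩

theorem V_add (ms : List Mn) : ∀ (r : ℕ) (o : ℤ) (f g : List ℤ → ℝ), Bd f → Bd g →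
    V ms r o (fun h => f h + g h) = V ms r o f + V ms r o g := by
  induction ms with
  | nil =>
    intro r o f g _ _
    cases r with
    | zero => rfl
    | succ r => simp [V_nil]
  | cons m ms ih =>
    intro r o f g hf hg
    cases r with
    | zero => rfl
    | succ r =>
      rw [V_cons, V_cons, V_cons, ← mm_add m ((V_bd1 ms (r + 1) o hf).add (V_bd2 ms r o 0 hf))
        ((V_bd1 ms (r + 1) o hg).add (V_bd2 ms r o 0 hg))]
      congr 1
      funext x
      rw [ih (r + 1) (x + o) f g hf hg,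
        ih r 0 (fun h => f ((x + o) :: h)) (fun h => g ((x + o) :: h)) (hf.comp _) (hg.comp _)]
      ring

theorem V_smul (ms : List Mn) : ∀ (r : ℕ) (o : ℤ) (f : List ℤ → ℝ) (c : ℝ), Bd f →
    V ms r o (fun h => c * f h) = c * V ms r o f := by
  induction ms with
  | nil =>
    intro r o f c _
    cases r with
    | zero => rfl
    | succ r => simp [V_nil]
  | cons m ms ih =>
    intro r o f c hf
    cases r with
    | zero => rfl
    | succ r =>
      rw [V_cons, V_cons, ← mm_smul m ((V_bd1 ms (r + 1) o hf).add (V_bd2 ms r o 0 hf))]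
      congr 1
      funext x
      rw [ih (r + 1) (x + o) f c hf, ih r 0 (fun h => f ((x + o) :: h)) c (hf.comp _)]
      ring

theorem V_sum (ms : List Mn) (r : ℕ) (o : ℤ) {ι : Type} (s : Finset ι) (F : ι → List ℤ → ℝ)
    (hF : ∀ i ∈ s, Bd (F i)) :
    V ms r o (fun h => ∑ i ∈ s, F i h) = ∑ i ∈ s, V ms r o (F i) := by
  classical
  induction s using Finset.induction_on with
  | empty =>
    have h := V_smul ms r o (fun _ => 0) 0 (Bd.const 0)
    simpa using h
  | insert a s ha ih =>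
    have h1 : (fun x => ∑ i ∈ insert a s, F i x) = fun x => F a x + ∑ i ∈ s, F i x := by
      funext x
      rw [sum_insert ha]
    have h2 : ∀ i ∈ s, Bd (F i) := fun i hi => hF i (mem_insert_of_mem hi)
    rw [h1, sum_insert ha, V_add ms r o _ _ (hF a (mem_insert_self a s)) (Bd.sum s h2), ih h2]

theorem V_mono (ms : List Mn) : ∀ (r : ℕ) (o : ℤ) (f g : List ℤ → ℝ), Bd f → Bd g →
    (∀ h, h.length = r → f h ≤ g h) → V ms r o f ≤ V ms r o g := by
  induction ms with
  | nil =>
    intro r o f g _ _ h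
    cases r with
    | zero => exact h [] rfl
    | succ r => exact le_refl _
  | cons m ms ih =>
    intro r o f g hf hg h
    cases r with
    | zero => exact h [] rfl
    | succ r =>
      rw [V_cons, V_cons]
      refine mm_mono m ((V_bd1 ms (r + 1) o hf).add (V_bd2 ms r o 0 hf))
        ((V_bd1 ms (r + 1) o hg).add (V_bd2 ms r o 0 hg)) fun x => add_le_add ?_ ?_
      · exact ih (r + 1) (x + o) f g hf hg h
      · refine ih r 0 _ _ (hf.comp _) (hg.comp _) fun h' hh' => h _ ?_
        rw [List.length_cons, hh']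

theorem V_nonneg (ms : List Mn) (r : ℕ) (o : ℤ) {f : List ℤ → ℝ} (hf : Bd f)
    (h : ∀ h, 0 ≤ f h) : 0 ≤ V ms r o f := by
  have h1 := V_mono ms r o (fun _ => 0) f (Bd.const 0) hf fun h' _ => h h'
  have h2 := V_smul ms r o (fun _ => 0) 0 (Bd.const 0)
  simp only [zero_mul] at h2
  rwa [h2] at h1

/-- the average of `f` over the box of side `L` with corner `h` -/
noncomputable def Av (L : ℕ) : List ℤ → (List ℤ → ℝ) → ℝ
  | [], f => f []
  | x :: h, f => (L : ℝ)⁻¹ * ∑ n ∈ range L, Av L h (fun h' => f ((x + (n : ℤ)) :: h'))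

theorem Av_abs {L : ℕ} (hL : 0 < L) : ∀ (h : List ℤ) (f : List ℤ → ℝ) (C : ℝ), (∀ h, |f h| ≤ C) →
    |Av L h f| ≤ C := by
  intro h
  induction h with
  | nil =>
    intro f C hf
    exact hf []
  | cons x h ih =>
    intro f C hf
    have hL' : (0 : ℝ) < L := by exact_mod_cast hL
    show |(L : ℝ)⁻¹ * ∑ n ∈ range L, Av L h (fun h' => f ((x + (n : ℤ)) :: h'))| ≤ C
    rw [abs_mul, abs_of_pos (by positivity : (0 : ℝ) < (L : ℝ)⁻¹), inv_mul_le_iff₀ hL']
    refine (abs_sum_le_sum_abs _ _).trans ?_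
    calc ∑ n ∈ range L, |Av L h (fun h' => f ((x + (n : ℤ)) :: h'))| ≤ ∑ n ∈ range L, C :=
          sum_le_sum fun n _ => ih _ C fun h' => hf _
      _ = L * C := by rw [sum_const, card_range, nsmul_eq_mul]

theorem Av_bd {L : ℕ} (hL : 0 < L) {f : List ℤ → ℝ} (hf : Bd f) : Bd (fun h => Av L h f) := by
  obtain ⟨C, hC⟩ := hf
  exact ⟨C, fun h => Av_abs hL h f C hC⟩

theorem V_av {L : ℕ} (hL : 0 < L) (ms : List Mn) : ∀ (r : ℕ) (o : ℤ) (f : List ℤ → ℝ), Bd f →
    V ms r o (fun h => Av L h f) = V ms r o f := by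
  induction ms with
  | nil =>
    intro r o f _
    cases r with
    | zero => rfl
    | succ r => rfl
  | cons m ms ih =>
    intro r o f hf
    cases r with
    | zero => rfl
    | succ r =>
      have hL' : (L : ℝ) ≠ 0 := by
        have : (0 : ℝ) < L := by exact_mod_cast hL
        exact this.ne'
      have e1 : ∀ x : ℤ, V ms (r + 1) (x + o) (fun h => Av L h f) +
          V ms r 0 (fun h => (fun h => Av L h f) ((x + o) :: h)) =
          V ms (r + 1) (x + o) f +
          (L : ℝ)⁻¹ * ∑ n ∈ range L, V ms r 0 (fun h => f ((x + (n : ℤ) + o) :: h)) := by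
        intro x
        rw [ih (r + 1) (x + o) f hf]
        congr 1
        have h1 : (fun h => (fun h => Av L h f) ((x + o) :: h)) =
            fun h => (L : ℝ)⁻¹ * ∑ n ∈ range L, Av L h (fun h' => f ((x + o + (n : ℤ)) :: h')) := rfl
        have h2 : ∀ n ∈ range L, Bd fun h => Av L h (fun h' => f ((x + o + (n : ℤ)) :: h')) :=
          fun n _ => Av_bd hL (hf.comp _)
        rw [h1, V_smul ms r 0 _ _ (Bd.sum _ h2), V_sum ms r 0 _ _ h2]
        congr 1
        refine sum_congr rfl fun n _ => ?_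
        rw [ih r 0 _ (hf.comp _)]
        have h3 : x + o + (n : ℤ) = x + (n : ℤ) + o := by ring
        rw [h3]
      rw [V_cons, V_cons]
      simp only [e1]
      have hb : ∀ n ∈ range L, Bd fun x : ℤ => V ms r 0 (fun h => f ((x + (n : ℤ) + o) :: h)) :=
        fun n _ => (V_bd2 ms r o 0 hf).comp fun x => x + (n : ℤ)
      rw [mm_add m (V_bd1 ms (r + 1) o hf) ((Bd.sum _ hb).smul _), mm_smul m (Bd.sum _ hb),
        mm_sum m _ hb, mm_add m (V_bd1 ms (r + 1) o hf) (V_bd2 ms r o 0 hf)]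
      congr 1
      have h4 : ∀ n ∈ range L, mm m (fun x : ℤ => V ms r 0 (fun h => f ((x + (n : ℤ) + o) :: h))) =
          mm m (fun x : ℤ => V ms r 0 (fun h => f ((x + o) :: h))) := fun n _ =>
        mm_shift m (V_bd2 ms r o 0 hf) (n : ℤ)
      rw [sum_congr rfl h4, sum_const, card_range, nsmul_eq_mul]
      field_simp

/-- small averages over all boxes of a given side imply small iterated means -/
theorem V_le {L : ℕ} (hL : 0 < L) (ms : List Mn) (r : ℕ) (o : ℤ) {f : List ℤ → ℝ} (hf : Bd f)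
    {κ : ℝ} (hκ : 0 ≤ κ) (h : ∀ h, h.length = r → Av L h f ≤ κ) :
    V ms r o f ≤ 2 ^ ms.length * κ := by
  rw [← V_av hL ms r o f hf]
  refine (V_mono ms r o _ (fun _ => κ) (Av_bd hL hf) (Bd.const κ) h).trans ?_
  refine (le_abs_self _).trans (V_abs ms r o _ κ fun _ => ?_)
  rw [abs_of_nonneg hκ]

end Pool.Agent.N688.RP
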