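import Pool.Agent.N688.RP.Box
import Pool.Agent.TH402.FB.Main
import Pool.Agent.W142.TF.Win

set_option autoImplicit false

/-!
# From the structure theorem to a null exceptional set, on one side
-/

open Filter Topology Finset

namespace Pool.Agent.N688.RP

open Pool.Agent.W634.BQ Pool.Agent.W505.BQ Pool.Agent.W27.FB Pool.Agent.W142.TF

/-- the upper Banach density of `W` is at least `c` -/
def Rich {k : ℕ} (W : Set (Fin k → ℕ)) (c : ℝ) : Prop :=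
  ∀ L₀ : ℕ, ∃ L : ℕ, L₀ ≤ L ∧ ∃ u : Fin k → ℕ,
    c * (L : ℝ) ^ k ≤ ({g : Fin k → ℕ | (∀ j, u j < g j ∧ g j ≤ u j + L) ∧ g ∈ W}.ncard : ℝ)

theorem side_abs {k : ℕ} (q M₁ : ℕ) (hq : 0 < q) (hM₁ : 0 < M₁) (σ : ℤ) (hσ : σ = 1 ∨ σ = -1)
    (A : Set ℕ) (W : ℕ → Set (Fin k → ℕ)) (hpos : ∀ d, ∀ g ∈ W d, ∀ j, 0 < g j)
    (τ : Fin k → Fin k) (hτ : Function.Surjective τ) (Q : Set (List ℤ)) (R : ℕ)
    (hQW : ∀ (d : ℤ) (v : Fin k → ℤ), d :: List.ofFn v ∈ Q →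
      ∃ g ∈ W (((q * M₁ : ℕ) : ℤ) * d).natAbs, ∀ j, (g j : ℤ) = σ * ((q * M₁ : ℕ) : ℤ) * v (τ j))
    (hfin : ∀ l : List ℤ, l.length = R →
      Good {d : ℤ | 0 < σ * d ∧ (((q * M₁ : ℕ) : ℤ) * d).natAbs ∈ A} l →
      ∃ s ∈ sub l, s.2.length = k + 1 ∧ s.2.reverse ∈ Q) :
    ∃ c : ℝ, 0 < c ∧ ∃ (T : Finset Circle) (ρ : ℝ), 0 < ρ ∧
      Null ({z : ℤ | (M₁ : ℤ) * z ∈ Cpl {y : ℕ | q * y ∈ A → Rich (W (q * y)) c}} ∩ Bo T ρ) := by
  classical
  by_contra hcon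
  push Not at hcon
  obtain ⟨c0, hc0⟩ : ∃ c0 : ℕ, c0 = q * M₁ := ⟨_, rfl⟩
  rw [← hc0] at hQW hfin
  have hc0p : 0 < c0 := by rw [hc0]; positivity
  have hc0R : (0 : ℝ) < (c0 : ℝ) ^ k := by positivity
  let D : ℝ → Set ℤ := fun κ => {d : ℤ | (0 < σ * d ∧ ((c0 : ℤ) * d).natAbs ∈ A) ∧
      ¬ Rich (W ((c0 : ℤ) * d).natAbs) (κ / (c0 : ℝ) ^ k)}
  obtain ⟨l, hl, hgood, hno⟩ := chain_main (k + 1) Q Pool.Agent.W505.FN.nul
    Pool.Agent.TH402.FB.s_mean Pool.Agent.W975.FN.trg Pool.Agent.W352.FN.bohr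
    Pool.Agent.TH402.FB.s_appr (by omega)
    {d : ℤ | 0 < σ * d ∧ ((c0 : ℤ) * d).natAbs ∈ A} D
    (fun κ d hd => hd.1) (by
      intro κ hκ T ρ hρ hnull
      refine hcon (κ / (c0 : ℝ) ^ k) (by positivity) T ρ hρ ?_
      have h1 := Pool.Agent.W505.FN.null_union hnull (Pool.Agent.W505.FN.null_neg hnull)
      refine Pool.Agent.W505.FN.null_mono ?_ h1
      rintro z ⟨⟨hz0, hzG⟩, hzB⟩
      have e1 : ∀ z : ℤ, q * ((M₁ : ℤ) * z).natAbs = ((c0 : ℤ) * z).natAbs := by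
        intro z
        rw [hc0]
        push_cast
        rw [mul_assoc, Int.natAbs_mul (q : ℤ), Int.natAbs_natCast]
      have hz0' : z ≠ 0 := fun h => hz0 (by rw [h, mul_zero])
      have hzG' : ((c0 : ℤ) * z).natAbs ∈ A ∧
          ¬ Rich (W ((c0 : ℤ) * z).natAbs) (κ / (c0 : ℝ) ^ k) := by
        rw [← e1]
        have : ¬ (q * ((M₁ : ℤ) * z).natAbs ∈ A →
          Rich (W (q * ((M₁ : ℤ) * z).natAbs)) (κ / (c0 : ℝ) ^ k)) := hzG
        exact Classical.not_imp.1 this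
      have e2 : ((c0 : ℤ) * (-z)).natAbs = ((c0 : ℤ) * z).natAbs := by
        rw [mul_neg, Int.natAbs_neg]
      rcases lt_trichotomy (σ * z) 0 with h | h | h
      · right
        show -z ∈ D κ ∩ Bo T ρ
        refine ⟨⟨⟨by rw [mul_neg]; omega, by rw [e2]; exact hzG'.1⟩, by rw [e2]; exact hzG'.2⟩, ?_⟩
        intro θ hθ
        have h2 := hzB θ hθ
        have e3 : ((θ ^ (-z) : Circle) : ℂ) - 1 = -(((θ ^ (-z) : Circle) : ℂ) * (((θ ^ z : Circle) : ℂ) - 1)) := by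
          have e4 : ((θ ^ (-z) : Circle) : ℂ) * ((θ ^ z : Circle) : ℂ) = 1 := by
            rw [← Circle.coe_mul, ← zpow_add, neg_add_cancel, zpow_zero, Circle.coe_one]
          rw [mul_sub, e4, mul_one]
          ring
        rw [e3, norm_neg, norm_mul, Circle.norm_coe, one_mul]
        exact h2
      · exfalso
        rcases mul_eq_zero.1 h with h | h
        · rcases hσ with h' | h' <;> rw [h'] at h <;> omega
        · exact hz0' h
      · left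
        exact ⟨⟨⟨h, hzG'.1⟩, hzG'.2⟩, hzB⟩)
    (by
      rintro κ hκ d ⟨-, hd⟩ ms
      unfold Rich at hd
      push Not at hd
      obtain ⟨L₀, hL₀⟩ := hd
      obtain ⟨L, hL1, hL2⟩ : ∃ L : ℕ, L₀ ≤ L ∧ 1 ≤ L := ⟨max L₀ 1, le_max_left _ _, le_max_right _ _⟩
      have e1 : term (k + 1) Q ms 0 [d] = V ms k 0 (F Q [d]) := by
        unfold term
        rw [if_neg (by simp), if_pos (by simp)]
        simp
      rw [e1]
      refine V_le (by omega : 0 < L) ms k 0 (F_bd Q [d]) hκ.le fun h hh => ?_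
      obtain ⟨v, rfl⟩ : ∃ v : Fin k → ℤ, List.ofFn v = h := by
        subst hh
        exact ⟨fun i => h.get i, List.ofFn_get h⟩
      have e2 : F Q [d] = fun h => if h ∈ {h : List ℤ | d :: h ∈ Q} then 1 else 0 := by
        funext h
        unfold F
        simp
      rw [e2]
      refine Av_le L (by omega) k v _ κ ?_
      obtain ⟨u, hu⟩ := box_count c0 hc0p σ hσ τ hτ v L (W ((c0 : ℤ) * d).natAbs) (hpos _)
      have h1 := hL₀ (c0 * L) (by nlinarith) u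
      have h2 : ({n : Fin k → ℕ | (∀ i, n i < L) ∧ (List.ofFn fun i => v i + (n i : ℤ)) ∈
          {h : List ℤ | d :: h ∈ Q}}.ncard) ≤
          {n : Fin k → ℕ | (∀ i, n i < L) ∧ ∃ g ∈ W ((c0 : ℤ) * d).natAbs, ∀ j,
            (g j : ℤ) = σ * c0 * (v (τ j) + (n (τ j) : ℤ))}.ncard := by
        refine Set.ncard_le_ncard ?_ ((Set.Finite.pi (fun _ : Fin k => Set.finite_Iio L)).subset ?_)
        · rintro n ⟨hn, hnQ⟩
          exact ⟨hn, hQW d (fun i => v i + (n i : ℤ)) hnQ⟩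
        · rintro n ⟨hn, _⟩ j _
          exact hn j
      have h3 : ((({n : Fin k → ℕ | (∀ i, n i < L) ∧ (List.ofFn fun i => v i + (n i : ℤ)) ∈
          {h : List ℤ | d :: h ∈ Q}}.ncard) : ℕ) : ℝ) ≤
          ({g : Fin k → ℕ | (∀ j, u j < g j ∧ g j ≤ u j + c0 * L) ∧
            g ∈ W ((c0 : ℤ) * d).natAbs}.ncard : ℝ) := by exact_mod_cast h2.trans hu
      refine h3.trans (h1.le.trans (le_of_eq ?_))
      push_cast
      rw [mul_pow]
      field_simp) R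
  obtain ⟨s, hs, h1, h2⟩ := hfin l hl hgood
  exact hno s hs h1 h2

end Pool.Agent.N688.RP
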