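import Pool.Agent.N688.RP.Final

set_option autoImplicit false

/-!
# The two sides
-/

open Filter Topology Finset

namespace Pool.Agent.N688.RP

open Pool.Agent.W634.BQ Pool.Agent.W505.BQ Pool.Agent.W27.FB Pool.Agent.W142.TF
open Pool.Agent.H947R3.GM Pool.Agent.H732R3.BigQ

/-- gaps before `d` -/
theorem left {k m : ℕ} {R : Set (Fin (k + 1 + 1) → ℕ)} (hR : Una m R) {q a : ℕ} (hq : 0 < q)
    (ha : a.Coprime q) (A : Set ℕ) : ∃ M₁ : ℕ, 0 < M₁ ∧ ∃ c : ℝ, 0 < c ∧ ∃ (T : Finset Circle) (ρ : ℝ), 0 < ρ ∧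
      Null ({z : ℤ | (M₁ : ℤ) * z ∈ Cpl {y : ℕ | q * y ∈ A →
        Rich {g : Fin k → ℕ | Often R q a A (Fin.snoc g (q * y) : Fin (k + 1) → ℕ)} c}} ∩ Bo T ρ) := by
  classical
  obtain ⟨T, K, hK, hcon⟩ := blockB Pool.Agent.H732R3.BigQ.quarterB hq ha hR
  obtain ⟨c0, hc0⟩ : ∃ c0 : ℕ, c0 = q * (T * K).factorial := ⟨_, rfl⟩
  refine ⟨(T * K).factorial, Nat.factorial_pos _, side_abs q (T * K).factorial hq
    (Nat.factorial_pos _) 1 (Or.inl rfl) A
    (fun d => {g : Fin k → ℕ | Often R q a A (Fin.snoc g d : Fin (k + 1) → ℕ)}) ?_ Fin.rev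
    Fin.rev_surjective {e : List ℤ | e.length = k + 1 ∧ ∃ w : Fin (k + 1) → ℕ, Often R q a A w ∧
      ∀ j : Fin (k + 1), (w j : ℤ) = ((q * (T * K).factorial : ℕ) : ℤ) * e.getD (k - j) 0}
    (T * K) ?_ ?_⟩
  · intro d g hg j
    have h1 := often_pos hR hg j.castSucc
    rwa [Fin.snoc_castSucc] at h1
  · rintro d v ⟨_, w, hw, hwe⟩
    rw [← hc0] at hwe ⊢
    have h1 : ((c0 : ℤ) * d).natAbs = w (Fin.last k) := by
      have h2 := hwe (Fin.last k)
      rw [Fin.val_last, Nat.sub_self] at h2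
      simp only [List.getD_cons_zero] at h2
      rw [← h2, Int.natAbs_natCast]
    refine ⟨Fin.init w, ?_, fun j => ?_⟩
    · show Often R q a A (Fin.snoc (Fin.init w) (((c0 : ℤ) * d).natAbs) : Fin (k + 1) → ℕ)
      rw [h1, Fin.snoc_init_self]
      exact hw
    · have h2 := hwe j.castSucc
      have h3 : k - (j.castSucc : ℕ) = (k - 1 - (j : ℕ)) + 1 := by
        have := j.2
        rw [Fin.val_castSucc]
        omega
      rw [h3, List.getD_cons_succ, List.getD_eq_getElem _ _ (by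
        have := j.2
        rw [List.length_ofFn]
        omega), List.getElem_ofFn] at h2
      show (w j.castSucc : ℤ) = _
      rw [h2, one_mul]
      congr 2
      ext
      rw [Fin.val_rev]
      show k - 1 - (j : ℕ) = k - ((j : ℕ) + 1)
      omega
  · intro l hl hgood
    obtain ⟨pos, hpos, hmono, w, hw, hwe⟩ := fin_abs q a A T K hcon 1 l hl hgood
    obtain ⟨y, hy⟩ : ∃ y : ℕ → ℕ, y = fun i => if h : i < k + 1 + 1 then pos ⟨i, h⟩ else 0 := ⟨_, rfl⟩
    have hyi : ∀ i (h : i < k + 1 + 1), y i = pos ⟨i, h⟩ := by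
      intro i h
      rw [hy]
      simp only [h, dif_pos]
    have h1 := sub_mem l (k + 1) y (by
      intro i hi
      rw [hyi i (by omega), hyi (i + 1) (by omega)]
      exact (hmono ⟨i, by omega⟩ ⟨i + 1, by omega⟩ (Fin.mk_lt_mk.2 (Nat.lt_succ_self i))).1 rfl) (by
      rw [hyi (k + 1) (by omega), hl]
      exact (hpos _).le)
    refine ⟨_, h1, by simp, by simp, w, hw, fun j => ?_⟩
    have hj := j.2
    rw [hwe j]
    congr 1
    rw [List.getD_eq_getElem _ _ (by
      rw [List.length_reverse, List.length_map, List.length_range]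
      omega), List.getElem_reverse, List.getElem_map, List.getElem_range]
    have h2 : (List.map (fun i => (List.take (y (i + 1)) l).sum - (List.take (y i) l).sum)
        (List.range (k + 1))).length - 1 - (k - (j : ℕ)) = j := by
      simp
      omega
    rw [h2, hyi j (by omega), hyi (j + 1) (by omega)]
    rfl

/-- gaps after `d` -/
theorem right {k m : ℕ} {R : Set (Fin (k + 1 + 1) → ℕ)} (hR : Una m R) {q a : ℕ} (hq : 0 < q)
    (ha : a.Coprime q) (A : Set ℕ) : ∃ M₁ : ℕ, 0 < M₁ ∧ ∃ c : ℝ, 0 < c ∧ ∃ (T : Finset Circle) (ρ : ℝ), 0 < ρ ∧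
      Null ({z : ℤ | (M₁ : ℤ) * z ∈ Cpl {y : ℕ | q * y ∈ A →
        Rich {g : Fin k → ℕ | Often R q a A (Fin.cons (q * y) g : Fin (k + 1) → ℕ)} c}} ∩ Bo T ρ) := by
  classical
  obtain ⟨T, K, hK, hcon⟩ := blockB Pool.Agent.H732R3.BigQ.quarterB hq ha hR
  obtain ⟨c0, hc0⟩ : ∃ c0 : ℕ, c0 = q * (T * K).factorial := ⟨_, rfl⟩
  refine ⟨(T * K).factorial, Nat.factorial_pos _, side_abs q (T * K).factorial hq
    (Nat.factorial_pos _) (-1) (Or.inr rfl) A
    (fun d => {g : Fin k → ℕ | Often R q a A (Fin.cons d g : Fin (k + 1) → ℕ)}) ?_ id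
    Function.surjective_id {e : List ℤ | e.length = k + 1 ∧ ∃ w : Fin (k + 1) → ℕ, Often R q a A w ∧
      ∀ j : Fin (k + 1), (w j : ℤ) = -(((q * (T * K).factorial : ℕ) : ℤ) * e.getD j 0)}
    (T * K) ?_ ?_⟩
  · intro d g hg j
    have h1 := often_pos hR hg j.succ
    rwa [Fin.cons_succ] at h1
  · rintro d v ⟨_, w, hw, hwe⟩
    rw [← hc0] at hwe ⊢
    have h1 : ((c0 : ℤ) * d).natAbs = w 0 := by
      have h2 := hwe 0
      rw [Fin.val_zero, List.getD_cons_zero] at h2
      have h3 : (c0 : ℤ) * d = -(w 0 : ℤ) := by linarith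
      rw [h3, Int.natAbs_neg, Int.natAbs_natCast]
    refine ⟨Fin.tail w, ?_, fun j => ?_⟩
    · show Often R q a A (Fin.cons (((c0 : ℤ) * d).natAbs) (Fin.tail w) : Fin (k + 1) → ℕ)
      rw [h1, Fin.cons_self_tail]
      exact hw
    · have h2 := hwe j.succ
      rw [Fin.val_succ, List.getD_cons_succ, List.getD_eq_getElem _ _ (by
        rw [List.length_ofFn]
        exact j.2), List.getElem_ofFn] at h2
      show (w j.succ : ℤ) = _
      rw [h2]
      simp
  · intro l hl hgood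
    obtain ⟨pos, hpos, hmono, w, hw, hwe⟩ :=
      fin_abs q a A T K hcon (-1) l hl hgood
    obtain ⟨y, hy⟩ : ∃ y : ℕ → ℕ, y = fun i => pos ⟨k + 1 - i, by omega⟩ := ⟨_, rfl⟩
    have h1 := sub_mem l (k + 1) y (by
      intro i hi
      rw [hy]
      exact (hmono ⟨k + 1 - (i + 1), by omega⟩ ⟨k + 1 - i, by omega⟩
        (Fin.mk_lt_mk.2 (by omega))).2 rfl) (by
      rw [hy, hl]
      exact (hpos _).le)
    refine ⟨_, h1, by simp, by simp, w, hw, fun j => ?_⟩
    have hj := j.2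
    rw [hwe j, ← mul_neg]
    congr 1
    rw [List.getD_eq_getElem _ _ (by
      rw [List.length_reverse, List.length_map, List.length_range]
      exact hj), List.getElem_reverse, List.getElem_map, List.getElem_range]
    have h2 : (List.map (fun i => (List.take (y (i + 1)) l).sum - (List.take (y i) l).sum)
        (List.range (k + 1))).length - 1 - (j : ℕ) = k - j := by
      simp
    rw [h2, hy]
    simp only
    have h3 : (⟨k + 1 - (k - (j : ℕ) + 1), by omega⟩ : Fin (k + 1 + 1)) = j.castSucc := by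
      ext
      simp only [Fin.val_castSucc]
      omega
    have h4 : (⟨k + 1 - (k - (j : ℕ)), by omega⟩ : Fin (k + 1 + 1)) = j.succ := by
      ext
      simp only [Fin.val_succ]
      omega
    rw [h3, h4]
    ring

end Pool.Agent.N688.RP
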